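import Mathlib
import Pool.Agent.W522.N.Defs

/-!
# Multiplicity one in the middle cohomology of the strata: definitions
-/

set_option autoImplicit false

namespace Pool.Agent.W522.M

open Polynomial

variable {E : Type} [Field E]

/-- The cohomology of the strata of the special fibre of a projective strictly semistable scheme of
relative dimension `n` over a henselian discrete valuation ring with residue field of `q`
elements. -/
structure Strata.IsProjective (D : Strata E) (n q : ℕ) : Prop where
  complex : D.IsComplex
  bounded : D.IsBounded n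
  above : D.VanishesAbove n
  lefschetz : D.IsLefschetz n
  duality : D.IsDuality n
  frobenius : D.IsFrobenius q
  frobeniusPairing : D.FrobeniusPairing n q
  generic : D.GenericLefschetz n

/-- The characteristic polynomial of Frobenius on `V a w` is in `ℤ[T]`, and its complex roots are
simple, except possibly `q^((w-a)/2)`, if `w - a` is even. -/
def Strata.SimpleAt (D : Strata E) (q a w : ℕ) : Prop :=
  ∃ P : ℤ[X], D.HasFrobPoly a w P ∧ SimpleExcept P (q ^ ((w - a) / 2)) (Even (w + a))

/-- Multiplicity one: for `1 ≤ a ≤ n` the eigenvalues of Frobenius on `V a n`, the cohomology of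
`Y^(a+1)` in the middle degree `dim Y^(a+1) = n - a`, and on `V a (n-1)`, the cohomology in the
degree below, are simple, except possibly `q^j` in degree `2 j`. -/
def Strata.MultiplicityOne (D : Strata E) (n q : ℕ) : Prop :=
  ∀ a, 1 ≤ a → a ≤ n → ∀ w, (w = n ∨ w + 1 = n) → D.SimpleAt q a w

/-- `F - 1`, where `F` is the Frobenius endomorphism of the column `p` of `E_1` in total degree `w`,
divided by `q^((w-p)/2)` (`w - p` even): because of the Tate twists this is `q^(-(w-a)/2)` times the
Frobenius endomorphism of `V a w`, for all `p`. -/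
noncomputable def Strata.shift (D : Strata E) (q : ℕ) {w : ℕ} (x : D.Ch w) : D.Ch w :=
  fun a => ((q : E) ^ ((w - a) / 2))⁻¹ • phi (x a) - x a

/-- Every element of the kernel of `N^r : E_2^(-r) → E_2^r`, in total degree `w`, is killed by a
power of `F - 1` as in `Strata.shift`. -/
def Strata.KernelTate (D : Strata E) (q w r : ℕ) : Prop :=
  ∀ x ∈ D.Z (-r) w, x ∈ D.B r w → ∃ k : ℕ, (D.shift q)^[k] x ∈ D.B (-r) w

/-- Every element of the cokernel of `N^r : E_2^(-r) → E_2^r`, in total degree `w`, is killed by a
power of `F - 1` as in `Strata.shift`. -/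
def Strata.CokernelTate (D : Strata E) (q w r : ℕ) : Prop :=
  ∀ y ∈ D.Z r w, ∃ k : ℕ, ∃ x ∈ D.Z (-r) w, (D.shift q)^[k] y - x ∈ D.B r w

/-- `N^r : E_2^(-r) → E_2^r`, in total degree `w`, `w - r` even, is bijective outside of the
eigenvalue `q^((w-r)/2)` of Frobenius. -/
def Strata.BijectiveOutsideTate (D : Strata E) (q w r : ℕ) : Prop :=
  D.KernelTate q w r ∧ D.CokernelTate q w r

end Pool.Agent.W522.M
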