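import Mathlib
import Pool.Agent.W522.N.N7

/-! Hard Lefschetz for the columns `±a` of `E_2`, at the level `a`. -/

set_option autoImplicit false

namespace Pool.Agent.W522.M

open Polynomial Module Finset

variable {E : Type} [Field E] {D : Strata E} {n : ℕ}

/-- `ρ` is not zero on `V a w` -/
def Rnz (D : Strata E) (a w : ℕ) : Prop := ∃ x : D.V a w, rho x ≠ 0

/-- `γ` is not zero on `V (a+1) w` -/
def Gnz (D : Strata E) (a w : ℕ) : Prop := ∃ x : D.V (a + 1) w, gam x ≠ 0

/-- `V a w` is not zero -/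
def Nz (D : Strata E) (a w : ℕ) : Prop := ∃ x : D.V a w, x ≠ 0

lemma rho_eq_zero {a w : ℕ} (h : ¬ Rnz D a w) (x : D.V a w) : rho x = 0 :=
  not_not.1 fun h1 => h ⟨x, h1⟩

lemma gam_eq_zero {a w : ℕ} (h : ¬ Gnz D a w) (x : D.V (a + 1) w) : gam x = 0 :=
  not_not.1 fun h1 => h ⟨x, h1⟩

lemma eq_zero_of {a w : ℕ} (h : ¬ Nz D a w) (x : D.V a w) : x = 0 :=
  not_not.1 fun h1 => h ⟨x, h1⟩

lemma inCol_coe {a b : ℕ} : InCol (a : ℤ) b ↔ a ≤ b ∧ Even ((b : ℤ) - a) := by
  unfold InCol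
  rw [Int.natAbs_natCast]

lemma inCol_self (a : ℕ) : InCol (a : ℤ) a := by
  rw [inCol_coe, sub_self]
  exact ⟨le_rfl, Even.zero⟩

lemma inCol_neg_self (a : ℕ) : InCol (-(a : ℤ)) a := inCol_neg.2 (inCol_self a)

lemma inCol_succ_pos (a : ℕ) : InCol ((a : ℤ) + 1) (a + 1) := by
  have := inCol_self (a + 1)
  rwa [Nat.cast_add, Nat.cast_one] at this

lemma inCol_succ_neg (a : ℕ) : InCol (-(a : ℤ) + 1) (a + 1) := by
  unfold InCol
  refine ⟨by omega, ?_⟩
  have : ((a + 1 : ℕ) : ℤ) - (-(a : ℤ) + 1) = 2 * a := by push_cast; ring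
  rw [this]
  exact even_two_mul _

lemma inCol_pred_neg (b : ℕ) : InCol (-((b + 1 : ℕ) : ℤ) + 1) b := by
  unfold InCol
  refine ⟨by omega, ?_⟩
  have : (b : ℤ) - (-((b + 1 : ℕ) : ℤ) + 1) = 2 * b := by push_cast; ring
  rw [this]
  exact even_two_mul _

lemma Zp_single {a w : ℕ} (y : D.V a w) (hy : rho y = 0) :
    (Pi.single a y : D.Ch w) ∈ D.Z (a : ℤ) w := by
  refine single_mem_Z (a : ℤ) y (inCol_self a) (fun _ => hy) ?_
  intro b hb hc
  have := hc.1
  omega

lemma Zm_single {b w : ℕ} (y : D.V (b + 1) w) (hy : rho y = 0) (hg : gam y = 0) :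
    (Pi.single (b + 1) y : D.Ch w) ∈ D.Z (-((b + 1 : ℕ) : ℤ)) w := by
  refine single_mem_Z _ y (inCol_neg_self (b + 1)) (fun _ => hy) ?_
  intro c hc _
  obtain rfl : c = b := by omega
  exact hg

lemma Z_comp {p : ℤ} {a w : ℕ} {z : D.Ch w} (hz : z ∈ D.Z p w) (h : InCol (p + 1) (a + 1)) :
    rho (z a) + gam (z (a + 2)) = 0 := (mem_Z z).1 hz |>.2 (a + 1) h

lemma Zm_gam {b w : ℕ} {z : D.Ch w} (hz : z ∈ D.Z (-((b + 1 : ℕ) : ℤ)) w) :
    gam (z (b + 1)) = 0 := by
  have h1 := (mem_Z z).1 hz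
  have h2 := h1.2 b (inCol_pred_neg b)
  cases b with
  | zero => exact h2
  | succ b =>
    change rho (z b) + gam (z (b + 2)) = 0 at h2
    have h3 : z b = 0 := h1.1 b fun h => by
      have := h.1
      omega
    rwa [h3, rho_zero, zero_add] at h2

lemma Bp_comp {a u w : ℕ} (h : u + 1 = w) {x : D.Ch w} (hx : x ∈ D.B (a : ℤ) w) :
    (∃ (b : ℕ) (e : a = b + 1) (y : D.V b u) (y' : D.V (a + 1) u),
      x a = tr h (e ▸ rho y : D.V a (u + 1)) + tr h (gam y')) ∨
      (a = 0 ∧ ∃ y' : D.V (a + 1) u, x a = tr h (gam y')) := by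
  obtain ⟨y, -, h2, -⟩ := (mem_B_iff h x).1 hx
  have h3 := h2 a (inCol_self a)
  cases a with
  | zero => exact Or.inr ⟨rfl, y 1, h3⟩
  | succ b =>
    left
    refine ⟨b, rfl, y b, y (b + 2), ?_⟩
    rw [h3]
    exact map_add (tr h) _ _

lemma Bm_comp {a u w : ℕ} (h : u + 1 = w) {x : D.Ch w} (hx : x ∈ D.B (-(a : ℤ)) w) :
    ∃ y' : D.V (a + 1) u, x a = tr h (gam y') := by
  obtain ⟨y, h1, h2, -⟩ := (mem_B_iff h x).1 hx
  have h3 := h2 a (inCol_neg_self a)
  cases a with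
  | zero => exact ⟨y 1, h3⟩
  | succ b =>
    refine ⟨y (b + 2), ?_⟩
    rw [h3]
    have h4 : y b = 0 := h1 b fun h => by
      have := h.1
      omega
    change tr h (rho (y b) + gam (y (b + 2))) = _
    rw [h4, rho_zero, zero_add]

/-- the boundary of an element of `V (a+1) u` on which `ρ` vanishes -/
lemma B_single_gam {p : ℤ} {a u w : ℕ} (h : u + 1 = w) (hp : p.natAbs = a) (t : D.V (a + 1) u)
    (ht : rho t = 0) : (Pi.single a (tr h (gam t)) : D.Ch w) ∈ D.B p w := by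
  have hev : Even ((a : ℤ) - p) := by
    rcases Int.natAbs_eq p with h1 | h1
    · rw [hp] at h1
      rw [h1, sub_self]
      exact Even.zero
    · rw [hp] at h1
      rw [h1, sub_neg_eq_add]
      exact ⟨a, rfl⟩
  rw [mem_B_iff h]
  refine ⟨Pi.single (a + 1) t, fun c hc => ?_, fun c hc => ?_, fun c hc => ?_⟩
  · refine single_ne _ fun h0 => hc ?_
    subst h0
    refine ⟨by omega, ?_⟩
    have : ((a + 1 : ℕ) : ℤ) - (p - 1) = (a - p) + 2 * 1 := by push_cast; ring
    rw [this]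
    exact hev.add (even_two_mul _)
  · by_cases hca : c = a
    · subst hca
      rw [single_same]
      congr 1
      cases c with
      | zero =>
        change gam t = gam ((Pi.single 1 t : D.Ch u) 1)
        rw [single_same]
      | succ c =>
        change gam t = rho ((Pi.single (c + 2) t : D.Ch u) c) +
          gam ((Pi.single (c + 2) t : D.Ch u) (c + 2))
        rw [single_same, single_ne t (by omega), rho_zero, zero_add]
    · rw [single_ne _ hca]
      symm
      have h0 : tot (Pi.single (a + 1) t : D.Ch u) c = 0 := by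
        cases c with
        | zero =>
          change gam ((Pi.single (a + 1) t : D.Ch u) 1) = 0
          rw [single_ne t (by omega), gam_zero]
        | succ c =>
          change rho ((Pi.single (a + 1) t : D.Ch u) c) +
            gam ((Pi.single (a + 1) t : D.Ch u) (c + 2)) = 0
          rw [single_ne t (b := c + 2) (by omega), gam_zero, add_zero]
          by_cases hc2 : c = a + 1
          · subst hc2
            rw [single_same]
            exact ht
          · rw [single_ne t hc2, rho_zero]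
      rw [h0, map_zero]
  · refine single_ne _ fun h0 => hc ?_
    subst h0
    exact ⟨by omega, hev⟩

/-- the boundary of an element of `V b u`, in the column `b` -/
lemma B_single_rho {b u w : ℕ} (h : u + 1 = w) (x : D.V b u) :
    (Pi.single (b + 1) (tr h (rho x)) : D.Ch w) ∈ D.B ((b + 1 : ℕ) : ℤ) w := by
  rw [mem_B_iff h]
  refine ⟨Pi.single b x, fun c hc => ?_, fun c hc => ?_, fun c hc => ?_⟩
  · refine single_ne _ fun h0 => hc ?_
    subst h0
    have : (((c + 1 : ℕ) : ℤ) - 1) = c := by push_cast; ring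
    rw [this]
    exact inCol_self c
  · rw [inCol_coe] at hc
    obtain ⟨c, rfl⟩ : ∃ c', c = c' + 1 := ⟨c - 1, by omega⟩
    by_cases hcb : c = b
    · subst hcb
      rw [single_same]
      congr 1
      change rho x = rho ((Pi.single c x : D.Ch u) c) + gam ((Pi.single c x : D.Ch u) (c + 2))
      rw [single_same, single_ne x (b := c + 2) (by omega), gam_zero, add_zero]
    · rw [single_ne _ (by omega)]
      symm
      have h0 : tot (Pi.single b x : D.Ch u) (c + 1) = 0 := by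
        change rho ((Pi.single b x : D.Ch u) c) + gam ((Pi.single b x : D.Ch u) (c + 2)) = 0
        rw [single_ne x hcb, single_ne x (b := c + 2) (by omega), gam_zero, rho_zero, add_zero]
      rw [h0, map_zero]
  · refine single_ne _ fun h0 => hc ?_
    subst h0
    exact inCol_self (b + 1)

lemma inj_lp (hL : D.IsLefschetz n) {a w r : ℕ} (hw : w + r = n) {x y : D.V a w}
    (h : pow r x = pow r y) : x = y := (hL.bij a w r hw).1 h

section HL

variable (hG : D.GenericLefschetz n) (hL : D.IsLefschetz n)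
include hG hL

/-- surjectivity in the column `a` -/
theorem hs_plus {a w r : ℕ} (hw : w + r = n) (h1 : Rnz D a w) (h2 : ¬ Rnz D a (w + 2 * r))
    (h3 : ∀ u, u + 1 = w + 2 * r → ¬ Gnz D a u) (h4 : ¬ Gnz D (a + 1) w) :
    ∃ b u, a = b + 1 ∧ u + 1 = w + 2 * r ∧ Rnz D b u := by
  obtain ⟨y, hy⟩ := h1
  obtain ⟨-, -, -, hs⟩ := hG (a : ℤ) w r hw
  obtain ⟨z, hz, hzB⟩ := hs _ (Zp_single (pow r y) (rho_eq_zero h2 _))
  have hcomp := Z_comp hz (inCol_succ_pos a)
  rw [gam_eq_zero h4, add_zero] at hcomp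
  have hne : pow r y - pow r (z a) ≠ 0 := by
    intro h
    have h5 := inj_lp hL hw (sub_eq_zero.1 h)
    rw [h5] at hy
    exact hy hcomp
  have hlev : (Pi.single a (pow r y) - powCh r z : D.Ch (w + 2 * r)) a =
      pow r y - pow r (z a) := by
    change (Pi.single a (pow r y) : D.Ch (w + 2 * r)) a - pow r (z a) = _
    rw [single_same]
  rcases Nat.eq_zero_or_pos (w + 2 * r) with h0 | h0
  · exfalso
    apply hne
    rw [← hlev]
    have : (Pi.single a (pow r y) - powCh r z : D.Ch (w + 2 * r)) = 0 := by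
      have h6 : D.B (a : ℤ) (w + 2 * r) = ⊥ := by
        rw [h0]
        rfl
      rw [h6] at hzB
      exact hzB
    rw [this]
    rfl
  · obtain ⟨u, hu⟩ : ∃ u, u + 1 = w + 2 * r := ⟨w + 2 * r - 1, by omega⟩
    rcases Bp_comp hu hzB with ⟨b, rfl, x, x', hx⟩ | ⟨rfl, x', hx⟩
    · refine ⟨b, u, rfl, hu, x, ?_⟩
      intro hx0
      apply hne
      rw [← hlev, hx, gam_eq_zero (h3 u hu), map_zero, add_zero]
      change tr hu (rho x) = 0
      rw [hx0, map_zero]
    · exfalso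
      apply hne
      rw [← hlev, hx, gam_eq_zero (h3 u hu), map_zero]

/-- surjectivity in the column `-a`, `a = b + 1` -/
theorem hs_minus {b w r : ℕ} (hw : w + r = n) (h1 : ¬ Rnz D (b + 1) (w + 2 * r))
    (h2 : ¬ Gnz D b (w + 2 * r)) (h3 : ∀ u, u + 1 = w + 2 * r → ¬ Gnz D (b + 1) u) :
    ¬ Gnz D b w ∧ (¬ Gnz D (b + 2) w → ¬ Rnz D (b + 1) w) := by
  obtain ⟨-, -, -, hs⟩ := hG (-((b + 1 : ℕ) : ℤ)) w r hw
  have key : ∀ y : D.V (b + 1) w, ∃ z ∈ D.Z (-((b + 1 : ℕ) : ℤ)) w, y = z (b + 1) := by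
    intro y
    obtain ⟨z, hz, hzB⟩ := hs _ (Zm_single (pow r y) (rho_eq_zero h1 _) (gam_eq_zero h2 _))
    refine ⟨z, hz, ?_⟩
    apply inj_lp hL hw
    have hlev : (Pi.single (b + 1) (pow r y) - powCh r z : D.Ch (w + 2 * r)) (b + 1) =
        pow r y - pow r (z (b + 1)) := by
      change (Pi.single (b + 1) (pow r y) : D.Ch (w + 2 * r)) (b + 1) - pow r (z (b + 1)) = _
      rw [single_same]
    apply sub_eq_zero.1
    rw [← hlev]
    rcases Nat.eq_zero_or_pos (w + 2 * r) with h0 | h0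
    · have : (Pi.single (b + 1) (pow r y) - powCh r z : D.Ch (w + 2 * r)) = 0 := by
        have h6 : D.B (-((b + 1 : ℕ) : ℤ)) (w + 2 * r) = ⊥ := by
          rw [h0]
          rfl
        rw [h6] at hzB
        exact hzB
      rw [this]
      rfl
    · obtain ⟨u, hu⟩ : ∃ u, u + 1 = w + 2 * r := ⟨w + 2 * r - 1, by omega⟩
      obtain ⟨x', hx⟩ := Bm_comp hu hzB
      rw [hx, gam_eq_zero (h3 u hu), map_zero]
  constructor
  · rintro ⟨y, hy⟩
    obtain ⟨z, hz, rfl⟩ := key y
    exact hy (Zm_gam hz)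
  · rintro h4 ⟨y, hy⟩
    obtain ⟨z, hz, rfl⟩ := key y
    have hcomp := Z_comp hz (inCol_succ_neg (b + 1))
    rw [gam_eq_zero h4, add_zero] at hcomp
    exact hy hcomp

omit hL in
/-- injectivity in the column `a` -/
theorem hi_plus {a w r : ℕ} (hw : w + r = n) (y : D.V a w) (hy0 : y ≠ 0) (hy : rho y = 0)
    (hB : (Pi.single a (pow r y) : D.Ch (w + 2 * r)) ∈ D.B (a : ℤ) (w + 2 * r)) :
    ∃ u, u + 1 = w ∧ (Gnz D a u ∨ ∃ b, a = b + 1 ∧ Rnz D b u) := by
  obtain ⟨-, -, hi, -⟩ := hG (a : ℤ) w r hw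
  have h1 := hi _ (Zp_single y hy) (by rw [powCh_single]; exact hB)
  rcases Nat.eq_zero_or_pos w with h0 | h0
  · subst h0
    exfalso
    apply hy0
    have h2 : (Pi.single a y : D.Ch 0) = 0 := h1
    have h3 := congrFun h2 a
    rwa [single_same] at h3
  · obtain ⟨u, hu⟩ : ∃ u, u + 1 = w := ⟨w - 1, by omega⟩
    refine ⟨u, hu, ?_⟩
    by_contra hcon
    rw [not_or, not_exists] at hcon
    obtain ⟨hc1, hc2⟩ := hcon
    apply hy0
    rcases Bp_comp hu h1 with ⟨b, rfl, x, x', hx⟩ | ⟨rfl, x', hx⟩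
    · rw [single_same] at hx
      rw [hx, gam_eq_zero hc1, map_zero, add_zero]
      change tr hu (rho x) = 0
      rw [rho_eq_zero (fun h => hc2 b ⟨rfl, h⟩), map_zero]
    · rw [single_same] at hx
      rw [hx, gam_eq_zero hc1, map_zero]

omit hL in
/-- injectivity in the column `-a`, `a = b + 1` -/
theorem hi_minus {b w r : ℕ} (hw : w + r = n) (y : D.V (b + 1) w) (hy0 : y ≠ 0) (hy : rho y = 0)
    (hg : gam y = 0)
    (hB : (Pi.single (b + 1) (pow r y) : D.Ch (w + 2 * r)) ∈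
      D.B (-((b + 1 : ℕ) : ℤ)) (w + 2 * r)) : ∃ u, u + 1 = w ∧ Gnz D (b + 1) u := by
  obtain ⟨-, -, hi, -⟩ := hG (-((b + 1 : ℕ) : ℤ)) w r hw
  have h1 := hi _ (Zm_single y hy hg) (by rw [powCh_single]; exact hB)
  rcases Nat.eq_zero_or_pos w with h0 | h0
  · subst h0
    exfalso
    apply hy0
    have h2 : (Pi.single (b + 1) y : D.Ch 0) = 0 := h1
    have h3 := congrFun h2 (b + 1)
    rwa [single_same] at h3
  · obtain ⟨u, hu⟩ : ∃ u, u + 1 = w := ⟨w - 1, by omega⟩
    refine ⟨u, hu, ?_⟩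
    by_contra hcon
    apply hy0
    obtain ⟨x', hx⟩ := Bm_comp hu h1
    rw [single_same] at hx
    rw [hx, gam_eq_zero hcon, map_zero]

end HL

end Pool.Agent.W522.M
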