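import Mathlib
import Pool.Agent.W522.G.G1
import Pool.Agent.W522.N.N8

/-! Strata with simple levels: elementary properties. -/

set_option autoImplicit false

namespace Pool.Agent.W522.M

open Polynomial Module Finset

variable {E : Type} [Field E] {S : Strata E} {n q π : ℕ}

/-- One class of eigenvalues: the levels `a ≥ 1` are simple modules, or zero. -/
structure SimpleLevels (S : Strata E) (n q π : ℕ) : Prop where
  complex : S.IsComplex
  lef : S.IsLefschetz n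
  frob : S.IsFrobenius q
  generic : S.GenericLefschetz n
  hq : (q : E) ≠ 0
  above : ∀ a w (x : S.V a w), 2 * n < w + a → x = 0
  empty : ∀ a w (x : S.V a w), n < a → x = 0
  parity : ∀ a w (x : S.V a w), (w + a) % 2 ≠ π → x = 0
  simple : ∀ a w (U : Submodule E (S.V (a + 1) w)), (∀ x ∈ U, phi x ∈ U) → U = ⊥ ∨ U = ⊤

lemma Rnz.nz {a w : ℕ} (h : Rnz S a w) : Nz S a w := by
  obtain ⟨x, hx⟩ := h
  exact ⟨x, fun h => hx (by rw [h, rho_zero])⟩

lemma Rnz.nz' {a w : ℕ} (h : Rnz S a w) : Nz S (a + 1) (w + 1) := by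
  obtain ⟨x, hx⟩ := h
  exact ⟨_, hx⟩

lemma Gnz.nz {a w : ℕ} (h : Gnz S a w) : Nz S (a + 1) w := by
  obtain ⟨x, hx⟩ := h
  exact ⟨x, fun h => hx (by rw [h, gam_zero])⟩

lemma Gnz.nz' {a w : ℕ} (h : Gnz S a w) : Nz S a (w + 1) := by
  obtain ⟨x, hx⟩ := h
  exact ⟨_, hx⟩

variable (hS : SimpleLevels S n q π)
include hS

lemma phi_lam' {a w : ℕ} (x : S.V a w) : phi (lam x) = (q : E) • lam (phi x) := hS.frob.lef a w x

lemma phi_gam' {a w : ℕ} (x : S.V (a + 1) w) : phi (gam x) = (q : E) • gam (phi x) :=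
  hS.frob.gys a w x

lemma phi_rho' {a w : ℕ} (x : S.V a w) : phi (rho x) = rho (phi x) := hS.frob.res a w x

lemma rho_inj {a w : ℕ} (h : Rnz S (a + 1) w) (x : S.V (a + 1) w) (hx : rho x = 0) : x = 0 := by
  rcases hS.simple a w (LinearMap.ker (S.res (a + 1) w)) (fun y hy => by
    have hy' : rho y = 0 := hy
    change rho (phi y) = 0
    rw [← phi_rho' hS, hy']
    exact map_zero (S.frob _ _)) with h1 | h1
  · have : x ∈ LinearMap.ker (S.res (a + 1) w) := hx
    rw [h1] at this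
    exact this
  · obtain ⟨y, hy⟩ := h
    exfalso
    apply hy
    have : y ∈ LinearMap.ker (S.res (a + 1) w) := by rw [h1]; exact Submodule.mem_top
    exact this

lemma rho_surj {a w : ℕ} (h : Rnz S a w) (y : S.V (a + 1) (w + 1)) : ∃ x : S.V a w, rho x = y := by
  rcases hS.simple a (w + 1) (LinearMap.range (S.res a w)) (by
    rintro _ ⟨x, rfl⟩
    exact ⟨phi x, (phi_rho' hS x).symm⟩) with h1 | h1
  · obtain ⟨x, hx⟩ := h
    exfalso
    apply hx
    have : rho x ∈ LinearMap.range (S.res a w) := ⟨x, rfl⟩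
    rw [h1] at this
    exact this
  · have : y ∈ LinearMap.range (S.res a w) := by rw [h1]; exact Submodule.mem_top
    exact this

lemma gam_inj {a w : ℕ} (h : Gnz S a w) (x : S.V (a + 1) w) (hx : gam x = 0) : x = 0 := by
  rcases hS.simple a w (LinearMap.ker (S.gys a w)) (fun y hy => by
    have hy' : gam y = 0 := hy
    change gam (phi y) = 0
    have h1 := phi_gam' hS y
    rw [hy'] at h1
    have h2 : phi (0 : S.V a (w + 1)) = 0 := map_zero (S.frob _ _)
    rw [h2] at h1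
    exact (smul_eq_zero.1 h1.symm).resolve_left hS.hq) with h1 | h1
  · have : x ∈ LinearMap.ker (S.gys a w) := hx
    rw [h1] at this
    exact this
  · obtain ⟨y, hy⟩ := h
    exfalso
    apply hy
    have : y ∈ LinearMap.ker (S.gys a w) := by rw [h1]; exact Submodule.mem_top
    exact this

lemma gam_surj {a w : ℕ} (h : Gnz S (a + 1) w) (y : S.V (a + 1) (w + 1)) :
    ∃ x : S.V (a + 2) w, gam x = y := by
  rcases hS.simple a (w + 1) (LinearMap.range (S.gys (a + 1) w)) (by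
    rintro _ ⟨x, rfl⟩
    change phi (gam x) ∈ _
    rw [phi_gam' hS]
    exact Submodule.smul_mem _ _ ⟨phi x, rfl⟩) with h1 | h1
  · obtain ⟨x, hx⟩ := h
    exfalso
    apply hx
    have : gam x ∈ LinearMap.range (S.gys (a + 1) w) := ⟨x, rfl⟩
    rw [h1] at this
    exact this
  · have : y ∈ LinearMap.range (S.gys (a + 1) w) := by rw [h1]; exact Submodule.mem_top
    exact this

omit hS in
lemma lam_inj_low (hL : S.IsLefschetz n) {a w : ℕ} (hw : w + 1 ≤ n) (x : S.V a w)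
    (hx : lam x = 0) : x = 0 :=
  pow_injective hL (r := 1) (s := n - w - 1) (by omega) (x := x) hx

lemma le_of_nz {a w : ℕ} (h : Nz S a w) : w + a ≤ 2 * n := by
  by_contra hc
  obtain ⟨x, hx⟩ := h
  exact hx (hS.above a w x (by omega))

lemma lam_surj_high {a w : ℕ} (hw : n ≤ w + 1) (hw' : w + 2 ≤ 2 * n) (y : S.V a (w + 2)) :
    ∃ x : S.V a w, lam x = y := by
  obtain ⟨w', r, h1, h2⟩ : ∃ w' r, w' + (r + 1) = n ∧ w' + 2 * r = w :=
    ⟨2 * n - (w + 2), w + 1 - n, by omega, by omega⟩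
  subst h2
  obtain ⟨x, hx⟩ := (hS.lef.bij a w' (r + 1) h1).2 y
  exact ⟨pow r x, hx⟩

lemma lam_bij {a w : ℕ} (h1 : Nz S (a + 1) w) (h2 : Nz S (a + 1) (w + 2)) :
    (∀ x : S.V (a + 1) w, lam x = 0 → x = 0) ∧
      ∀ y : S.V (a + 1) (w + 2), ∃ x : S.V (a + 1) w, lam x = y := by
  have key : ∃ x : S.V (a + 1) w, lam x ≠ 0 := by
    by_cases hw : w + 1 ≤ n
    · obtain ⟨x, hx⟩ := h1
      exact ⟨x, fun h => hx (lam_inj_low hS.lef hw x h)⟩
    · obtain ⟨y, hy⟩ := h2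
      have := le_of_nz hS ⟨y, hy⟩
      obtain ⟨x, hx⟩ := lam_surj_high hS (by omega) (by omega) y
      exact ⟨x, by rwa [hx]⟩
  obtain ⟨x0, hx0⟩ := key
  constructor
  · intro x hx
    rcases hS.simple a w (LinearMap.ker (S.lef (a + 1) w)) (fun y hy => by
      have hy' : lam y = 0 := hy
      change lam (phi y) = 0
      have h1 := phi_lam' hS y
      rw [hy'] at h1
      have h2 : phi (0 : S.V (a + 1) (w + 2)) = 0 := map_zero (S.frob _ _)
      rw [h2] at h1
      exact (smul_eq_zero.1 h1.symm).resolve_left hS.hq) with h3 | h3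
    · have : x ∈ LinearMap.ker (S.lef (a + 1) w) := hx
      rw [h3] at this
      exact this
    · exfalso
      apply hx0
      have : x0 ∈ LinearMap.ker (S.lef (a + 1) w) := by rw [h3]; exact Submodule.mem_top
      exact this
  · intro y
    rcases hS.simple a (w + 2) (LinearMap.range (S.lef (a + 1) w)) (by
      rintro _ ⟨x, rfl⟩
      change phi (lam x) ∈ _
      rw [phi_lam' hS]
      exact Submodule.smul_mem _ _ ⟨phi x, rfl⟩) with h3 | h3
    · exfalso
      apply hx0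
      have : lam x0 ∈ LinearMap.range (S.lef (a + 1) w) := ⟨x0, rfl⟩
      rw [h3] at this
      exact this
    · have : y ∈ LinearMap.range (S.lef (a + 1) w) := by rw [h3]; exact Submodule.mem_top
      exact this

lemma nz_up {a w : ℕ} (h : Nz S a w) (hw : w + 1 ≤ n) : Nz S a (w + 2) := by
  obtain ⟨x, hx⟩ := h
  exact ⟨lam x, fun h => hx (lam_inj_low hS.lef hw x h)⟩

lemma nz_sym {a w w' : ℕ} (h : w + w' = 2 * n) (hz : Nz S a w) : Nz S a w' := by
  obtain ⟨x, hx⟩ := hz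
  rcases le_total w n with h1 | h1
  · obtain ⟨r, hr⟩ : ∃ r, w + r = n := ⟨n - w, by omega⟩
    have h2 : w + 2 * r = w' := by omega
    subst h2
    exact ⟨pow r x, fun h3 => hx ((hS.lef.bij a w r hr).1 (h3.trans (pow_zero_vec r).symm))⟩
  · obtain ⟨r, hr⟩ : ∃ r, w' + r = n := ⟨n - w', by omega⟩
    have h2 : w' + 2 * r = w := by omega
    subst h2
    obtain ⟨y, hy⟩ := (hS.lef.bij a w' r hr).2 x
    exact ⟨y, fun h3 => hx (by rw [← hy, h3]; exact pow_zero_vec r)⟩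

/-- the support of a level is a string -/
def Shape (S : Strata E) (n a c : ℕ) : Prop :=
  c ≤ n ∧ ∀ w, Nz S a w ↔ c ≤ w ∧ w + c ≤ 2 * n ∧ (w + c) % 2 = 0

lemma shape (a : ℕ) (h : ∃ w, Nz S a w) : ∃ c, Shape S n a c := by
  classical
  have hpar : ∀ w, Nz S a w → (w + a) % 2 = π := by
    rintro w ⟨x, hx⟩
    by_contra h
    exact hx (hS.parity a w x h)
  set c := Nat.find h with hc
  have hcz : Nz S a c := Nat.find_spec h
  have hmin : ∀ w, Nz S a w → c ≤ w := fun w hw => Nat.find_min' h hw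
  have hle : ∀ w, Nz S a w → w ≤ 2 * n := fun w hw => by
    have := le_of_nz hS hw
    omega
  have hsym : ∀ w, Nz S a w → w + c ≤ 2 * n := by
    intro w hw
    have h1 := hle w hw
    have h2 := hmin (2 * n - w) (nz_sym hS (w := w) (by omega) hw)
    omega
  have hcn : c ≤ n := by
    have := hsym c hcz
    omega
  refine ⟨c, hcn, fun w => ⟨fun hw => ⟨hmin w hw, hsym w hw, ?_⟩, ?_⟩⟩
  · have h1 := hpar w hw
    have h2 := hpar c hcz
    omega
  · rintro ⟨h1, h2, h3⟩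
    have low : ∀ k, c + 2 * k ≤ n + 1 → Nz S a (c + 2 * k) := by
      intro k
      induction k with
      | zero => exact fun _ => hcz
      | succ k ih =>
        intro hk
        have e : c + 2 * (k + 1) = c + 2 * k + 2 := by ring
        rw [e]
        exact nz_up hS (ih (by omega)) (by omega)
    by_cases hw : w ≤ n
    · obtain ⟨k, hk⟩ : ∃ k, w = c + 2 * k := ⟨(w - c) / 2, by omega⟩
      rw [hk]
      exact low k (by omega)
    · obtain ⟨k, hk⟩ : ∃ k, 2 * n - w = c + 2 * k := ⟨(2 * n - w - c) / 2, by omega⟩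
      have e : c + 2 * k + w = 2 * n := by omega
      exact nz_sym hS e (low k (by omega))

lemma r_up {a w : ℕ} (h : Rnz S a w) (h' : Nz S (a + 1) (w + 3)) : Rnz S a (w + 2) := by
  obtain ⟨x, hx⟩ := h
  refine ⟨lam x, fun h0 => hx ?_⟩
  rw [← hS.lef.lef_res] at h0
  exact (lam_bij hS (a := a) (w := w + 1) ⟨_, hx⟩ h').1 _ h0

lemma r_down {a w : ℕ} (h : Rnz S (a + 1) (w + 2)) (h' : Nz S (a + 1) w) : Rnz S (a + 1) w := by
  obtain ⟨x, hx⟩ := h
  obtain ⟨y, rfl⟩ := (lam_bij hS h' (Rnz.nz ⟨x, hx⟩)).2 x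
  refine ⟨y, fun h0 => hx ?_⟩
  rw [← hS.lef.lef_res, h0]
  exact lam_zero

lemma g_up {a w : ℕ} (h : Gnz S (a + 1) w) (h' : Nz S (a + 1) (w + 3)) :
    Gnz S (a + 1) (w + 2) := by
  obtain ⟨x, hx⟩ := h
  refine ⟨lam x, fun h0 => hx ?_⟩
  rw [← hS.lef.lef_gys] at h0
  exact (lam_bij hS (a := a) (w := w + 1) ⟨_, hx⟩ h').1 _ h0

lemma g_down {a w : ℕ} (h : Gnz S a (w + 2)) (h' : Nz S (a + 1) w) : Gnz S a w := by
  obtain ⟨x, hx⟩ := h
  obtain ⟨y, rfl⟩ := (lam_bij hS h' (Gnz.nz ⟨x, hx⟩)).2 x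
  refine ⟨y, fun h0 => hx ?_⟩
  rw [← hS.lef.lef_gys, h0]
  exact lam_zero

lemma rr {a w : ℕ} (h : Rnz S a w) : ¬ Rnz S (a + 1) (w + 1) := by
  rintro ⟨y, hy⟩
  obtain ⟨x, rfl⟩ := rho_surj hS h y
  exact hy (hS.complex.res_res a w x)

lemma gg {a w : ℕ} (h : Gnz S (a + 1) w) : ¬ Gnz S a (w + 1) := by
  rintro ⟨y, hy⟩
  obtain ⟨x, rfl⟩ := gam_surj hS h y
  exact hy (hS.complex.gys_gys a w x)

lemma rg {a w : ℕ} (h : Rnz S (a + 1) w) (h' : Gnz S (a + 1) (w + 1)) :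
    Gnz S a w ∧ Rnz S a (w + 1) := by
  obtain ⟨x, hx⟩ := h
  have h1 : gam (rho x) ≠ 0 := fun h0 => hx (gam_inj hS h' _ h0)
  have h2 : gam (rho x) + rho (gam x) = 0 := hS.complex.gys_res a w x
  have h3 : rho (gam x) ≠ 0 := fun h0 => h1 (by rwa [h0, add_zero] at h2)
  exact ⟨⟨x, fun h0 => h3 (by rw [h0, rho_zero])⟩, _, h3⟩

lemma gr {a w : ℕ} (h : Gnz S (a + 1) w) (h' : Rnz S (a + 1) (w + 1)) :
    Rnz S (a + 2) w ∧ Gnz S (a + 2) (w + 1) := by
  obtain ⟨x, hx⟩ := h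
  have h1 : rho (gam x) ≠ 0 := fun h0 => hx (rho_inj hS h' _ h0)
  have h2 : gam (rho x) + rho (gam x) = 0 := hS.complex.gys_res (a + 1) w x
  have h3 : gam (rho x) ≠ 0 := fun h0 => h1 (by rwa [h0, zero_add] at h2)
  exact ⟨⟨x, fun h0 => h3 (by rw [h0, gam_zero])⟩, _, h3⟩

end Pool.Agent.W522.M
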