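import Mathlib
import Pool.Agent.W522.G.G2

/-! Strata with simple levels: `γρ m = 0` implies `ρ m = 0`, up to the middle degree. -/

set_option autoImplicit false

namespace Pool.Agent.W522.M

open Polynomial Module Finset

variable {E : Type} [Field E] {S : Strata E} {n q π : ℕ} (hS : SimpleLevels S n q π)
include hS

lemma r_down_iter {a c : ℕ} (hc : Shape S n (a + 1) c) (k w : ℕ) (h : Rnz S (a + 1) (w + 2 * k))
    (h' : Nz S (a + 1) w) : Rnz S (a + 1) w := by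
  induction k with
  | zero => exact h
  | succ k ih =>
    have h1 := (hc.2 _).1 h'
    have h2 := (hc.2 _).1 h.nz
    exact ih (r_down hS h ((hc.2 _).2 ⟨by omega, by omega, by omega⟩))

lemma r_up_iter {a c : ℕ} (hc : Shape S n (a + 1) c) (k w : ℕ) (h : Rnz S a w)
    (h' : Nz S (a + 1) (w + 2 * k + 1)) : Rnz S a (w + 2 * k) := by
  induction k with
  | zero => exact h
  | succ k ih =>
    have h1 := (hc.2 _).1 h'
    have h2 := (hc.2 _).1 h.nz'
    exact r_up hS (ih ((hc.2 _).2 ⟨by omega, by omega, by omega⟩)) h'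

lemma g_down_iter {a c : ℕ} (hc : Shape S n (a + 1) c) (k w : ℕ) (h : Gnz S a (w + 2 * k))
    (h' : Nz S (a + 1) w) : Gnz S a w := by
  induction k with
  | zero => exact h
  | succ k ih =>
    have h1 := (hc.2 _).1 h'
    have h2 := (hc.2 _).1 h.nz
    exact ih (g_down hS h ((hc.2 _).2 ⟨by omega, by omega, by omega⟩))

lemma g_up_iter {a c : ℕ} (hc : Shape S n (a + 1) c) (k w : ℕ) (h : Gnz S (a + 1) w)
    (h' : Nz S (a + 1) (w + 2 * k + 1)) : Gnz S (a + 1) (w + 2 * k) := by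
  induction k with
  | zero => exact h
  | succ k ih =>
    have h1 := (hc.2 _).1 h'
    have h2 := (hc.2 _).1 h.nz'
    exact g_up hS (ih ((hc.2 _).2 ⟨by omega, by omega, by omega⟩)) h'

lemma edge_r {a c c' w0 : ℕ} (hc : Shape S n (a + 1) c) (hc' : Shape S n (a + 2) c')
    (h : Rnz S (a + 1) w0) : (c' = c + 1 ∨ c = c' + 1) ∧
      ∀ w, Nz S (a + 1) w → Nz S (a + 2) (w + 1) → Rnz S (a + 1) w := by
  have key : ∀ w, Nz S (a + 1) w → Nz S (a + 2) (w + 1) → Rnz S (a + 1) w := by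
    intro w h1 h2
    have h3 := (hc.2 _).1 h1
    have h4 := (hc.2 _).1 h.nz
    rcases le_total w w0 with h5 | h5
    · obtain ⟨k, hk⟩ : ∃ k, w0 = w + 2 * k := ⟨(w0 - w) / 2, by omega⟩
      subst hk
      exact r_down_iter hS hc k w h h1
    · obtain ⟨k, hk⟩ : ∃ k, w = w0 + 2 * k := ⟨(w - w0) / 2, by omega⟩
      subst hk
      exact r_up_iter hS hc' k w0 h h2
  refine ⟨?_, key⟩
  have h1 := (hc.2 _).1 h.nz
  have h2 := (hc'.2 _).1 h.nz'
  have hcn := hc.1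
  have hcn' := hc'.1
  -- the bottom
  have h3 : Rnz S (a + 1) c := by
    obtain ⟨k, hk⟩ : ∃ k, w0 = c + 2 * k := ⟨(w0 - c) / 2, by omega⟩
    subst hk
    exact r_down_iter hS hc k c h ((hc.2 _).2 ⟨le_rfl, by omega, by omega⟩)
  have h4 := (hc'.2 _).1 h3.nz'
  -- the top
  obtain ⟨k, hk⟩ : ∃ k, w0 + 2 * k + 1 = 2 * n - c' := ⟨(2 * n - c' - w0) / 2, by omega⟩
  have h5 : Rnz S (a + 1) (w0 + 2 * k) :=
    r_up_iter hS hc' k w0 h ((hc'.2 _).2 ⟨by omega, by omega, by omega⟩)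
  have h6 := (hc.2 _).1 h5.nz
  omega

lemma edge_g {a c c' w0 : ℕ} (hc : Shape S n (a + 1) c) (hc' : Shape S n (a + 2) c')
    (h : Gnz S (a + 1) w0) : (c' = c + 1 ∨ c = c' + 1) ∧
      ∀ w, Nz S (a + 2) w → Nz S (a + 1) (w + 1) → Gnz S (a + 1) w := by
  have key : ∀ w, Nz S (a + 2) w → Nz S (a + 1) (w + 1) → Gnz S (a + 1) w := by
    intro w h1 h2
    have h3 := (hc'.2 _).1 h1
    have h4 := (hc'.2 _).1 h.nz
    rcases le_total w w0 with h5 | h5
    · obtain ⟨k, hk⟩ : ∃ k, w0 = w + 2 * k := ⟨(w0 - w) / 2, by omega⟩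
      subst hk
      exact g_down_iter hS hc' k w h h1
    · obtain ⟨k, hk⟩ : ∃ k, w = w0 + 2 * k := ⟨(w - w0) / 2, by omega⟩
      subst hk
      exact g_up_iter hS hc k w0 h h2
  refine ⟨?_, key⟩
  have h1 := (hc'.2 _).1 h.nz
  have h2 := (hc.2 _).1 h.nz'
  have hcn := hc.1
  have hcn' := hc'.1
  -- the bottom
  have h3 : Gnz S (a + 1) c' := by
    obtain ⟨k, hk⟩ : ∃ k, w0 = c' + 2 * k := ⟨(w0 - c') / 2, by omega⟩
    subst hk
    exact g_down_iter hS hc' k c' h ((hc'.2 _).2 ⟨le_rfl, by omega, by omega⟩)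
  have h4 := (hc.2 _).1 h3.nz'
  -- the top
  obtain ⟨k, hk⟩ : ∃ k, w0 + 2 * k + 1 = 2 * n - c := ⟨(2 * n - c - w0) / 2, by omega⟩
  have h5 : Gnz S (a + 1) (w0 + 2 * k) :=
    g_up_iter hS hc k w0 h ((hc.2 _).2 ⟨by omega, by omega, by omega⟩)
  have h6 := (hc'.2 _).1 h5.nz
  omega

/-- boundary, by `ρ` -/
lemma mem_B_of_rho {b w r u : ℕ} (hu : u + 1 = w + 2 * r) (h : Rnz S b u)
    (y : S.V (b + 1) w) :
    (Pi.single (b + 1) (pow r y) : S.Ch (w + 2 * r)) ∈ S.B ((b + 1 : ℕ) : ℤ) (w + 2 * r) := by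
  obtain ⟨x, hx⟩ := rho_surj hS h (tr hu.symm (pow r y))
  have h1 := B_single_rho hu x
  rw [hx, tr_tr, tr_rfl] at h1
  exact h1

/-- boundary, by `γ` -/
lemma mem_B_of_gam {p : ℤ} {b w r u : ℕ} (hp : p.natAbs = b + 1) (hu : u + 1 = w + 2 * r)
    (h : Gnz S (b + 1) u) (h' : ¬ Rnz S (b + 2) u) (y : S.V (b + 1) w) :
    (Pi.single (b + 1) (pow r y) : S.Ch (w + 2 * r)) ∈ S.B p (w + 2 * r) := by
  obtain ⟨t, ht⟩ := gam_surj hS h (tr hu.symm (pow r y))
  have h1 := B_single_gam hu hp t (rho_eq_zero h' t)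
  rw [ht, tr_tr, tr_rfl] at h1
  exact h1

/-- `ρ ≠ 0`, `γ = 0` between the levels `a + 1`, `a + 2` is impossible if the next edge is zero -/
lemma step_rho {a : ℕ} (hR : ∀ w, ¬ Rnz S (a + 2) w) (hGz : ∀ w, ¬ Gnz S (a + 2) w) {w0 : ℕ}
    (h : Rnz S (a + 1) w0) : ∃ w, Gnz S (a + 1) w := by
  by_contra hcon
  have hg : ∀ w, ¬ Gnz S (a + 1) w := fun w hw => hcon ⟨w, hw⟩
  obtain ⟨c, hc⟩ := shape hS (a + 1) ⟨_, h.nz⟩
  obtain ⟨c', hc'⟩ := shape hS (a + 2) ⟨_, h.nz'⟩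
  obtain ⟨ht, hall⟩ := edge_r hS hc hc' h
  have hcn := hc.1
  have hcn' := hc'.1
  have N1 : ∀ w, Nz S (a + 1) w ↔ c ≤ w ∧ w + c ≤ 2 * n ∧ (w + c) % 2 = 0 := hc.2
  have N2 : ∀ w, Nz S (a + 2) w ↔ c' ≤ w ∧ w + c' ≤ 2 * n ∧ (w + c') % 2 = 0 := hc'.2
  rcases ht with ht | ht
  · -- type D
    have h1 : Rnz S (a + 1) c :=
      hall c ((N1 _).2 ⟨le_rfl, by omega, by omega⟩) ((N2 _).2 ⟨by omega, by omega, by omega⟩)
    obtain ⟨r, hr⟩ : ∃ r, c + r = n := ⟨n - c, by omega⟩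
    have h2 : ¬ Rnz S (a + 1) (c + 2 * r) := by
      intro h
      have := (N2 _).1 h.nz'
      omega
    have h3 : Gnz S a (c + 2 * r) := by
      by_contra h4
      exact (hs_minus hS.generic hS.lef hr h2 h4 (fun u _ => hg u)).2 (hGz c) h1
    cases a with
    | zero =>
      obtain ⟨t, ht0⟩ := h3
      have hc1 : 1 ≤ c := by
        have := le_of_nz hS ⟨_, ht0⟩
        omega
      obtain ⟨w, rfl⟩ : ∃ w, c = w + 1 := ⟨c - 1, by omega⟩
      have hw : w + (r + 1) = n := by omega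
      have e : w + 1 + 2 * r + 1 = w + 2 * (r + 1) := by ring
      obtain ⟨y, hy⟩ := (hS.lef.bij 0 w (r + 1) hw).2 (tr e (gam t))
      have hy0 : y ≠ 0 := by
        rintro rfl
        rw [pow_zero_vec] at hy
        exact ht0 ((tr e).injective (hy.symm.trans (map_zero _).symm))
      have hw1 : ¬ Rnz S 0 w := fun h5 => rr hS h5 h1
      obtain ⟨u, hu, h5 | ⟨b, hb, -⟩⟩ := hi_plus hS.generic hw y hy0 (rho_eq_zero hw1 y) (by
        rw [hy]
        exact B_single_gam (p := ((0 : ℕ) : ℤ)) (a := 0) e rfl t (rho_eq_zero h2 t))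
      · have := (N1 _).1 h5.nz
        omega
      · omega
    | succ a =>
      obtain ⟨b, u, hb, hu, h4⟩ := hs_plus hS.generic hS.lef hr h1 h2 (fun u _ => hg u) (hGz c)
      obtain rfl : b = a + 1 := by omega
      obtain ⟨r', rfl⟩ : ∃ r', r = r' + 1 := ⟨r - 1, by omega⟩
      have h5 : Gnz S (a + 1) (c + 2 * r') :=
        g_down hS h3 ((N1 _).2 ⟨by omega, by omega, by omega⟩)
      have h6 : u = c + 2 * r' + 1 := by omega
      subst h6
      exact hg _ (gr hS h5 h4).2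
  · -- type U
    obtain ⟨r, hr⟩ : ∃ r, c' + r = n := ⟨n - c', by omega⟩
    obtain ⟨u, hu⟩ : ∃ u, u + 1 = c' + 2 * r := ⟨c' + 2 * r - 1, by omega⟩
    have h1 : Rnz S (a + 1) u :=
      hall u ((N1 _).2 ⟨by omega, by omega, by omega⟩) ((N2 _).2 ⟨by omega, by omega, by omega⟩)
    obtain ⟨y, hy⟩ := (N2 c').2 ⟨le_rfl, by omega, by omega⟩
    obtain ⟨u', hu', h2 | ⟨b, hb, h2⟩⟩ := hi_plus hS.generic hr y hy (rho_eq_zero (hR _) y)
      (mem_B_of_rho hS hu h1 y)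
    · exact hGz _ h2
    · obtain rfl : b = a + 1 := by omega
      have := (N1 _).1 h2.nz
      omega

/-- `γ ≠ 0`, `ρ = 0` between the levels `a + 1`, `a + 2` is impossible if the next edge is zero -/
lemma step_gam {a : ℕ} (hR : ∀ w, ¬ Rnz S (a + 2) w) (hGz : ∀ w, ¬ Gnz S (a + 2) w) {w0 : ℕ}
    (h : Gnz S (a + 1) w0) : ∃ w, Rnz S (a + 1) w := by
  by_contra hcon
  have hr0 : ∀ w, ¬ Rnz S (a + 1) w := fun w hw => hcon ⟨w, hw⟩
  obtain ⟨c, hc⟩ := shape hS (a + 1) ⟨_, h.nz'⟩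
  obtain ⟨c', hc'⟩ := shape hS (a + 2) ⟨_, h.nz⟩
  obtain ⟨ht, hall⟩ := edge_g hS hc hc' h
  have hcn := hc.1
  have hcn' := hc'.1
  have N1 : ∀ w, Nz S (a + 1) w ↔ c ≤ w ∧ w + c ≤ 2 * n ∧ (w + c) % 2 = 0 := hc.2
  have N2 : ∀ w, Nz S (a + 2) w ↔ c' ≤ w ∧ w + c' ≤ 2 * n ∧ (w + c') % 2 = 0 := hc'.2
  rcases ht with ht | ht
  · -- type D
    obtain ⟨r, hr⟩ : ∃ r, c + r = n := ⟨n - c, by omega⟩
    obtain ⟨u, hu⟩ : ∃ u, u + 1 = c + 2 * r := ⟨c + 2 * r - 1, by omega⟩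
    have h1 : Gnz S (a + 1) u :=
      hall u ((N2 _).2 ⟨by omega, by omega, by omega⟩) ((N1 _).2 ⟨by omega, by omega, by omega⟩)
    obtain ⟨y, hy⟩ := (N1 c).2 ⟨le_rfl, by omega, by omega⟩
    have h2 : ∃ u', u' + 1 = c ∧ Rnz S a u' := by
      obtain ⟨u', hu', h2 | ⟨b, hb, h2⟩⟩ := hi_plus hS.generic hr y hy (rho_eq_zero (hr0 _) y)
        (mem_B_of_gam hS (by omega) hu h1 (hR _) y)
      · have := (N2 _).1 h2.nz
        omega
      · obtain rfl : b = a := by omega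
        exact ⟨u', hu', h2⟩
    obtain ⟨u', hu', h2⟩ := h2
    have h3 : Gnz S a c := by
      refine ⟨y, fun hy' => ?_⟩
      obtain ⟨u'', hu'', h4⟩ := hi_minus hS.generic hr y hy (rho_eq_zero (hr0 _) y) hy'
        (mem_B_of_gam hS (by omega) hu h1 (hR _) y)
      have := (N2 _).1 h4.nz
      omega
    cases a with
    | zero =>
      have hw : u' + (r + 1) = n := by omega
      obtain ⟨b, u'', hb, -⟩ := hs_plus hS.generic hS.lef hw h2 (fun h5 => by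
          have := (N1 _).1 h5.nz'
          omega) (fun v hv => by
            have : v = u + 1 := by omega
            subst this
            exact gg hS h1) (fun h5 => by
              have := (N2 _).1 h5.nz
              omega)
      omega
    | succ a =>
      have h4 : Rnz S (a + 1) (u' + 2) :=
        r_up hS h2 ((N1 _).2 ⟨by omega, by omega, by omega⟩)
      have h5 : u' + 2 = c + 1 := by omega
      rw [h5] at h4
      exact hr0 _ (gr hS h3 h4).1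
  · -- type U
    obtain ⟨r, hr⟩ : ∃ r, c' + r = n := ⟨n - c', by omega⟩
    have h1 : Gnz S (a + 1) c' :=
      hall c' ((N2 _).2 ⟨le_rfl, by omega, by omega⟩) ((N1 _).2 ⟨by omega, by omega, by omega⟩)
    refine (hs_minus (b := a + 1) hS.generic hS.lef hr (hR _) (fun h2 => ?_)
      (fun u _ => hGz u)).1 h1
    have := (N1 _).1 h2.nz'
    omega

/-- between the levels `b`, `b + 1`, `b ≥ 1`, the maps `ρ`, `γ` are both zero, or both not zero -/
theorem not_bad (k : ℕ) : ∀ a : ℕ, n < a + 1 + k → ((∃ w, Rnz S (a + 1) w) ↔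
    ∃ w, Gnz S (a + 1) w) := by
  induction k with
  | zero =>
    intro a ha
    constructor
    · rintro ⟨w, x, hx⟩
      exact absurd (by rw [hS.empty _ _ x (by omega), rho_zero]) hx
    · rintro ⟨w, x, hx⟩
      exact absurd (by rw [hS.empty _ _ x (by omega), gam_zero]) hx
  | succ k ih =>
    intro a ha
    have hnb := ih (a + 1) (by omega)
    by_cases hR : ∃ w, Rnz S (a + 1 + 1) w
    · obtain ⟨w1, h1⟩ := hR
      obtain ⟨w2, h2⟩ := hnb.1 ⟨w1, h1⟩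
      obtain ⟨c, hc⟩ := shape hS (a + 2) ⟨_, h1.nz⟩
      obtain ⟨c', hc'⟩ := shape hS (a + 3) ⟨_, h1.nz'⟩
      obtain ⟨ht, hallR⟩ := edge_r (a := a + 1) hS hc hc' h1
      obtain ⟨-, hallG⟩ := edge_g (a := a + 1) hS hc hc' h2
      have hcn := hc.1
      have hcn' := hc'.1
      have N1 : ∀ w, Nz S (a + 2) w ↔ c ≤ w ∧ w + c ≤ 2 * n ∧ (w + c) % 2 = 0 := hc.2
      have N2 : ∀ w, Nz S (a + 3) w ↔ c' ≤ w ∧ w + c' ≤ 2 * n ∧ (w + c') % 2 = 0 := hc'.2
      rcases ht with ht | ht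
      · have h3 : Rnz S (a + 1 + 1) c :=
          hallR c ((N1 _).2 ⟨le_rfl, by omega, by omega⟩)
            ((N2 _).2 ⟨by omega, by omega, by omega⟩)
        have h4 : Gnz S (a + 1 + 1) (c + 1) :=
          hallG (c + 1) ((N2 _).2 ⟨by omega, by omega, by omega⟩)
            ((N1 _).2 ⟨by omega, by omega, by omega⟩)
        obtain ⟨h5, h6⟩ := rg (a := a + 1) hS h3 h4
        exact ⟨fun _ => ⟨_, h5⟩, fun _ => ⟨_, h6⟩⟩
      · constructor
        · rintro ⟨w, hw⟩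
          have h3 := (N1 _).1 hw.nz'
          exact absurd (hallR (w + 1) hw.nz' ((N2 _).2 ⟨by omega, by omega, by omega⟩))
            (rr hS hw)
        · rintro ⟨w, hw⟩
          have h3 := (N1 _).1 hw.nz
          obtain ⟨w', rfl⟩ : ∃ w', w = w' + 1 := ⟨w - 1, by omega⟩
          exact absurd hw (gg (a := a + 1) hS (hallG w' ((N2 _).2 ⟨by omega, by omega, by omega⟩)
            hw.nz))
    · have hG : ¬ ∃ w, Gnz S (a + 1 + 1) w := fun h => hR (hnb.2 h)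
      constructor
      · rintro ⟨w, hw⟩
        exact step_rho hS (fun w h => hR ⟨w, h⟩) (fun w h => hG ⟨w, h⟩) hw
      · rintro ⟨w, hw⟩
        exact step_gam hS (fun w h => hR ⟨w, h⟩) (fun w h => hG ⟨w, h⟩) hw

/-- **The class theorem.** -/
theorem class_zero {s v : ℕ} (hv : v + 1 ≤ n) (m : S.V s v) (hm : gam (rho m) = 0) :
    rho m = 0 := by
  by_contra hx
  have h1 : Rnz S s v := ⟨m, hx⟩
  have h2 : ¬ Gnz S s (v + 1) := fun h => hx (gam_inj hS h _ hm)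
  cases s with
  | succ a =>
    obtain ⟨w, hw⟩ := (not_bad hS (n + 1) a (by omega)).1 ⟨v, h1⟩
    obtain ⟨c, hc⟩ := shape hS (a + 1) ⟨_, h1.nz⟩
    obtain ⟨c', hc'⟩ := shape hS (a + 2) ⟨_, h1.nz'⟩
    obtain ⟨-, hall⟩ := edge_g hS hc hc' hw
    exact h2 (hall (v + 1) h1.nz' (nz_up hS h1.nz hv))
  | zero =>
    obtain ⟨c, hc⟩ := shape hS 1 ⟨_, h1.nz'⟩
    have hcn := hc.1
    have N1 : ∀ w, Nz S 1 w ↔ c ≤ w ∧ w + c ≤ 2 * n ∧ (w + c) % 2 = 0 := hc.2
    have h1' := (N1 _).1 h1.nz'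
    by_cases hR : ∃ w, Rnz S 1 w
    · obtain ⟨w1, h3⟩ := hR
      obtain ⟨c', hc'⟩ := shape hS 2 ⟨_, h3.nz'⟩
      obtain ⟨ht, hall⟩ := edge_r (a := 0) hS hc hc' h3
      have hcn' := hc'.1
      exact rr hS h1 (hall (v + 1) h1.nz' ((hc'.2 _).2 ⟨by omega, by omega, by omega⟩))
    · have hR' : ∀ w, ¬ Rnz S 1 w := fun w h => hR ⟨w, h⟩
      have hG1 : ∀ w, ¬ Gnz S 1 w := fun w h => hR ((not_bad hS (n + 1) 0 (by omega)).2 ⟨w, h⟩)
      obtain ⟨r, hr⟩ : ∃ r, c + r = n := ⟨n - c, by omega⟩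
      have hG0 : ∀ w, ¬ Gnz S 0 w := by
        intro w hw
        have h3 := (N1 _).1 hw.nz
        have h4 : Gnz S 0 c := by
          obtain ⟨k, hk⟩ : ∃ k, w = c + 2 * k := ⟨(w - c) / 2, by omega⟩
          subst hk
          exact g_down_iter hS hc k c hw ((N1 _).2 ⟨le_rfl, by omega, by omega⟩)
        refine (hs_minus (b := 0) hS.generic hS.lef hr (hR' _) (fun h5 => ?_)
          (fun u _ => hG1 u)).1 h4
        obtain ⟨k, hk⟩ : ∃ k, c + 2 * r = v + 1 + 2 * k := ⟨(c + 2 * r - (v + 1)) / 2, by omega⟩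
        rw [hk] at h5
        exact h2 (g_down_iter hS hc k (v + 1) h5 h1.nz')
      obtain ⟨k, hk⟩ : ∃ k, v + 2 * k + 1 = c + 2 * r := ⟨(c + 2 * r - (v + 1)) / 2, by omega⟩
      have h3 : Rnz S 0 (v + 2 * k) :=
        r_up_iter hS hc k v h1 ((N1 _).2 ⟨by omega, by omega, by omega⟩)
      obtain ⟨y, hy⟩ := (N1 c).2 ⟨le_rfl, by omega, by omega⟩
      obtain ⟨u', hu', h4⟩ := hi_plus hS.generic hr y hy (rho_eq_zero (hR' _) y)
        (mem_B_of_rho hS hk h3 y)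
      have h5 : Rnz S 0 u' := by
        rcases h4 with h4 | ⟨b, hb, h4⟩
        · exact absurd h4 (hG1 _)
        · obtain rfl : b = 0 := by omega
          exact h4
      have hw : u' + (r + 1) = n := by omega
      obtain ⟨b, u'', hb, -⟩ := hs_plus hS.generic hS.lef hw h5 (fun h6 => by
          have := (N1 _).1 h6.nz'
          omega) (fun u _ => hG0 u) (hG1 _)
      omega

end Pool.Agent.W522.M
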