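import Mathlib
import Pool.Agent.W522.G.G2

/-! Direct summands of the data. -/

set_option autoImplicit false

namespace Pool.Agent.W522.M

open Polynomial Module Finset

variable {E : Type} [Field E] {n q : ℕ}

/-- idempotents which commute with everything -/
structure IsCut (D : Strata E) (e : ∀ a w, D.Hom a w a w) : Prop where
  idem : ∀ a w x, e a w (e a w x) = e a w x
  res : ∀ a w (x : D.V a w), e (a + 1) (w + 1) (rho x) = rho (e a w x)
  gys : ∀ a w (x : D.V (a + 1) w), e a (w + 1) (gam x) = gam (e (a + 1) w x)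
  lef : ∀ a w (x : D.V a w), e a (w + 2) (lam x) = lam (e a w x)
  frob : ∀ a w (x : D.V a w), e a w (phi x) = phi (e a w x)

variable {D : Strata E} {e : ∀ a w, D.Hom a w a w}

/-- the direct summand -/
def cut (he : IsCut D e) : Strata E where
  V a w := LinearMap.range (e a w)
  res a w := (D.res a w).restrict (p := LinearMap.range (e a w))
    (q := LinearMap.range (e (a + 1) (w + 1))) (by
      rintro _ ⟨x, rfl⟩
      exact ⟨rho x, he.res a w x⟩)
  gys a w := (D.gys a w).restrict (p := LinearMap.range (e (a + 1) w))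
    (q := LinearMap.range (e a (w + 1))) (by
      rintro _ ⟨x, rfl⟩
      exact ⟨gam x, he.gys a w x⟩)
  lef a w := (D.lef a w).restrict (p := LinearMap.range (e a w))
    (q := LinearMap.range (e a (w + 2))) (by
      rintro _ ⟨x, rfl⟩
      exact ⟨lam x, he.lef a w x⟩)
  pair a w v := (D.pair a w v).domRestrict₁₂ (LinearMap.range (e a w)) (LinearMap.range (e a v))
  frob a w := (D.frob a w).restrict (p := LinearMap.range (e a w))
    (q := LinearMap.range (e a w)) (by
      rintro _ ⟨x, rfl⟩
      exact ⟨phi x, he.frob a w x⟩)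

variable (he : IsCut D e)

/-- inclusion -/
def inc {a w : ℕ} (x : (cut he).V a w) : D.V a w := Subtype.val x

/-- projection -/
def prj {a w : ℕ} (x : D.V a w) : (cut he).V a w := ⟨e a w x, x, rfl⟩

lemma inc_inj {a w : ℕ} {x y : (cut he).V a w} (h : inc he x = inc he y) : x = y := Subtype.ext h

lemma inc_zero {a w : ℕ} : inc he (0 : (cut he).V a w) = 0 := rfl
lemma inc_add {a w : ℕ} (x y : (cut he).V a w) : inc he (x + y) = inc he x + inc he y := rfl
lemma inc_smul {a w : ℕ} (c : E) (x : (cut he).V a w) : inc he (c • x) = c • inc he x := rfl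
lemma inc_rho {a w : ℕ} (x : (cut he).V a w) : inc he (rho x) = rho (inc he x) := rfl
lemma inc_gam {a w : ℕ} (x : (cut he).V (a + 1) w) : inc he (gam x) = gam (inc he x) := rfl
lemma inc_lam {a w : ℕ} (x : (cut he).V a w) : inc he (lam x) = lam (inc he x) := rfl
lemma inc_phi {a w : ℕ} (x : (cut he).V a w) : inc he (phi x) = phi (inc he x) := rfl

lemma inc_ip {a w v : ℕ} (x : (cut he).V a w) (y : (cut he).V a v) :
    ip x y = ip (inc he x) (inc he y) := rfl

lemma inc_pow {a w : ℕ} (r : ℕ) (x : (cut he).V a w) : inc he (pow r x) = pow r (inc he x) := by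
  induction r with
  | zero => rfl
  | succ r ih => rw [pow_succ_eq, pow_succ_eq, inc_lam, ih]

lemma inc_prj {a w : ℕ} (x : D.V a w) : inc he (prj he x) = e a w x := rfl

lemma e_inc {a w : ℕ} (x : (cut he).V a w) : e a w (inc he x) = inc he x := by
  obtain ⟨_, x, rfl⟩ := x
  exact he.idem a w x

lemma prj_inc {a w : ℕ} (x : (cut he).V a w) : prj he (inc he x) = x :=
  inc_inj he (e_inc he x)

lemma prj_zero {a w : ℕ} : prj he (0 : D.V a w) = 0 := inc_inj he (map_zero (e a w))
lemma prj_add {a w : ℕ} (x y : D.V a w) : prj he (x + y) = prj he x + prj he y :=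
  inc_inj he (map_add (e a w) x y)
lemma prj_sub {a w : ℕ} (x y : D.V a w) : prj he (x - y) = prj he x - prj he y :=
  inc_inj he (map_sub (e a w) x y)
lemma prj_rho {a w : ℕ} (x : D.V a w) : prj he (rho x) = rho (prj he x) :=
  inc_inj he (he.res a w x)
lemma prj_gam {a w : ℕ} (x : D.V (a + 1) w) : prj he (gam x) = gam (prj he x) :=
  inc_inj he (he.gys a w x)
lemma prj_lam {a w : ℕ} (x : D.V a w) : prj he (lam x) = lam (prj he x) :=
  inc_inj he (he.lef a w x)

lemma prj_pow {a w : ℕ} (r : ℕ) (x : D.V a w) : prj he (pow r x) = pow r (prj he x) := by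
  induction r with
  | zero => rfl
  | succ r ih => rw [pow_succ_eq, pow_succ_eq, prj_lam, ih]

/-- inclusion of families -/
def incCh {w : ℕ} (x : (cut he).Ch w) : D.Ch w := fun a => inc he (x a)

/-- projection of families -/
def prjCh {w : ℕ} (x : D.Ch w) : (cut he).Ch w := fun a => prj he (x a)

lemma tot_inc {w : ℕ} (x : (cut he).Ch w) (a : ℕ) : tot (incCh he x) a = inc he (tot x a) := by
  cases a with
  | zero => rfl
  | succ a => rfl

lemma tot_prj {w : ℕ} (x : D.Ch w) (a : ℕ) : tot (prjCh he x) a = prj he (tot x a) := by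
  cases a with
  | zero => exact (prj_gam he _).symm
  | succ a =>
    change rho (prj he (x a)) + gam (prj he (x (a + 2))) = prj he (rho (x a) + gam (x (a + 2)))
    rw [prj_add, prj_rho, prj_gam]

lemma prjCh_incCh {w : ℕ} (x : (cut he).Ch w) : prjCh he (incCh he x) = x :=
  funext fun a => prj_inc he (x a)

lemma inc_eq_zero {a w : ℕ} (x : (cut he).V a w) : inc he x = 0 ↔ x = 0 :=
  ⟨fun h => inc_inj he (h.trans (inc_zero he).symm), fun h => by rw [h]; exact inc_zero he⟩

lemma inc_Z {p : ℤ} {w : ℕ} {x : (cut he).Ch w} (hx : x ∈ (cut he).Z p w) :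
    incCh he x ∈ D.Z p w := by
  rw [mem_Z] at hx ⊢
  refine ⟨fun a ha => ?_, fun a ha => ?_⟩
  · exact (inc_eq_zero he _).2 (hx.1 a ha)
  · rw [tot_inc, hx.2 a ha]
    exact inc_zero he

lemma prj_Z {p : ℤ} {w : ℕ} {x : D.Ch w} (hx : x ∈ D.Z p w) : prjCh he x ∈ (cut he).Z p w := by
  rw [mem_Z] at hx ⊢
  refine ⟨fun a ha => ?_, fun a ha => ?_⟩
  · change prj he (x a) = 0
    rw [hx.1 a ha, prj_zero]
  · rw [tot_prj, hx.2 a ha, prj_zero]

lemma inc_B {p : ℤ} {w : ℕ} {x : (cut he).Ch w} (hx : x ∈ (cut he).B p w) :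
    incCh he x ∈ D.B p w := by
  cases w with
  | zero =>
    have h1 : x = 0 := hx
    rw [h1]
    exact Submodule.zero_mem _
  | succ w =>
    rw [mem_B] at hx ⊢
    obtain ⟨y, h1, h2, h3⟩ := hx
    refine ⟨incCh he y, fun a ha => (inc_eq_zero he _).2 (h1 a ha), fun a ha => ?_,
      fun a ha => (inc_eq_zero he _).2 (h3 a ha)⟩
    rw [tot_inc, ← h2 a ha]
    rfl

lemma prj_B {p : ℤ} {w : ℕ} {x : D.Ch w} (hx : x ∈ D.B p w) : prjCh he x ∈ (cut he).B p w := by
  cases w with
  | zero =>
    have h1 : x = 0 := hx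
    rw [h1]
    have h2 : prjCh he (0 : D.Ch 0) = 0 := funext fun a => prj_zero he
    rw [h2]
    exact Submodule.zero_mem _
  | succ w =>
    rw [mem_B] at hx ⊢
    obtain ⟨y, h1, h2, h3⟩ := hx
    refine ⟨prjCh he y, fun a ha => ?_, fun a ha => ?_, fun a ha => ?_⟩
    · change prj he (y a) = 0
      rw [h1 a ha, prj_zero]
    · rw [tot_prj, ← h2 a ha]
      rfl
    · change prj he (x a) = 0
      rw [h3 a ha, prj_zero]

lemma inc_powCh {w : ℕ} (r : ℕ) (x : (cut he).Ch w) :
    incCh he (powCh r x) = powCh r (incCh he x) := funext fun a => inc_pow he r (x a)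

lemma prj_powCh {w : ℕ} (r : ℕ) (x : D.Ch w) :
    prjCh he (powCh r x) = powCh r (prjCh he x) := funext fun a => prj_pow he r (x a)

lemma cut_complex (h : D.IsComplex) : (cut he).IsComplex where
  res_res a w x := inc_inj he (h.res_res a w (inc he x))
  gys_gys a w x := inc_inj he (h.gys_gys a w (inc he x))
  gys_res a w x := inc_inj he (h.gys_res a w (inc he x))

lemma cut_lef (h : D.IsLefschetz n) : (cut he).IsLefschetz n where
  lef_res a w x := inc_inj he (h.lef_res a w (inc he x))
  lef_gys a w x := inc_inj he (h.lef_gys a w (inc he x))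
  bij a w r hw := by
    constructor
    · intro x y hxy
      apply inc_inj he
      apply (h.bij a w r hw).1
      have h1 := congrArg (inc he) hxy
      rwa [inc_pow, inc_pow] at h1
    · intro y
      obtain ⟨x, hx⟩ := (h.bij a w r hw).2 (inc he y)
      refine ⟨prj he x, ?_⟩
      rw [← prj_pow, hx, prj_inc]

lemma cut_bounded (h : D.IsBounded n) : (cut he).IsBounded n where
  neg a w x hw := inc_inj he (h.neg a w (inc he x) hw)
  empty a w x ha := inc_inj he (h.empty a w (inc he x) ha)

lemma cut_duality (h : D.IsDuality n)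
    (hself : ∀ a w v, w + v = 2 * n → ∀ (x : D.V a w) (y : D.V a v),
      ip (e a w x) y = ip x (e a v y)) : (cut he).IsDuality n where
  adj a w v x y := h.adj a w v (inc he x) (inc he y)
  lef_adj a w v x y := h.lef_adj a w v (inc he x) (inc he y)
  symm a w v x y := h.symm a w v (inc he x) (inc he y)
  nondeg a w v hwv x hx := by
    apply inc_inj he
    apply h.nondeg a w v hwv
    intro y
    rw [← e_inc, hself a w v hwv]
    exact hx (prj he y)

lemma cut_frob (h : D.IsFrobenius q) : (cut he).IsFrobenius q where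
  res a w x := inc_inj he (h.res a w (inc he x))
  gys a w x := inc_inj he (h.gys a w (inc he x))
  lef a w x := inc_inj he (h.lef a w (inc he x))

lemma cut_generic (h : D.GenericLefschetz n) : (cut he).GenericLefschetz n := by
  intro p w r hw
  obtain ⟨h1, h2, h3, h4⟩ := h p w r hw
  refine ⟨fun x hx => ?_, fun x hx => ?_, fun x hx hxB => ?_, fun y hy => ?_⟩
  · have h5 := prj_Z he (h1 _ (inc_Z he hx))
    rwa [prj_powCh, prjCh_incCh] at h5
  · have h5 := prj_B he (h2 _ (inc_B he hx))
    rwa [prj_powCh, prjCh_incCh] at h5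
  · have h5 := inc_B he hxB
    rw [inc_powCh] at h5
    have h6 := prj_B he (h3 _ (inc_Z he hx) h5)
    rwa [prjCh_incCh] at h6
  · obtain ⟨x, hx, h5⟩ := h4 _ (inc_Z he hy)
    refine ⟨prjCh he x, prj_Z he hx, ?_⟩
    have h6 := prj_B he h5
    have h7 : prjCh he (incCh he y - powCh r x) = y - powCh r (prjCh he x) := by
      rw [← prj_powCh]
      funext a
      change prj he (inc he (y a) - (powCh r x) a) = y a - prj he ((powCh r x) a)
      rw [prj_sub, prj_inc]
    rwa [h7] at h6

end Pool.Agent.W522.M
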