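import Mathlib
import Pool.Agent.W522.G.G3
import Pool.Agent.W522.G.G4
import Pool.Agent.W522.N.N10

/-! The part of the cohomology with a given class of eigenvalues. -/

set_option autoImplicit false

namespace Pool.Agent.W522.M

open Polynomial Module Finset Pool.Agent.W522.C

section Generalities

variable {E : Type*} [Field E]

/-- the substitution `T ↦ T / c` -/
noncomputable def twist (c : E) (hc : c ≠ 0) : E[X] ≃ₐ[E] E[X] :=
  letI : Invertible c⁻¹ := invertibleOfNonzero (inv_ne_zero hc)
  algEquivCMulXAddC c⁻¹ 0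

lemma twist_X (c : E) (hc : c ≠ 0) : twist c hc X = C c⁻¹ * X := by
  unfold twist
  rw [algEquivCMulXAddC_apply]
  simp

lemma aeval_twist {V : Type*} [AddCommGroup V] [Module E V] (c : E) (hc : c ≠ 0)
    (F : Module.End E V) (f : E[X]) : aeval F (twist c hc f) = aeval (c⁻¹ • F) f := by
  have h : (aeval F).comp (twist c hc : E[X] →ₐ[E] E[X]) = aeval (c⁻¹ • F) := by
    apply Polynomial.algHom_ext
    change aeval F (twist c hc X) = aeval (c⁻¹ • F) X
    rw [twist_X, map_mul, aeval_C, aeval_X, aeval_X, Algebra.algebraMap_eq_smul_one, smul_mul_assoc,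
      one_mul]
  exact congrArg (fun g : E[X] →ₐ[E] Module.End E V => g f) h

lemma twist_irreducible {c : E} (hc : c ≠ 0) {f : E[X]} (hf : Irreducible f) :
    Irreducible (twist c hc f) := (MulEquiv.irreducible_iff (twist c hc)).2 hf

lemma twist_dvd {c : E} (hc : c ≠ 0) {f : E[X]} (h : twist c hc f ∣ X - C c) :
    f ∣ X - C 1 := by
  have h1 : twist c hc (C c * (X - C 1)) = X - C c := by
    rw [map_mul, map_sub, twist_X]
    have h2 : ∀ d : E, twist c hc (C d) = C d := fun d => (twist c hc).commutes d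
    rw [h2, h2, mul_sub, ← mul_assoc, ← C_mul, mul_inv_cancel₀ hc, C_1, one_mul, mul_one]
  rw [← h1] at h
  have h3 : f ∣ C c * (X - C 1) := (map_dvd_iff (twist c hc)).1 h
  exact ((isUnit_C.2 hc.isUnit).dvd_mul_left).1 h3

lemma dvd_of_killed {V : Type*} [AddCommGroup V] [Module E V] [FiniteDimensional E V]
    (F : Module.End E V) {f : E[X]} (hf : Irreducible f) (k : ℕ) (hk : ∀ x, aeval F (f ^ k) x = 0)
    {x : V} (hx : x ≠ 0) : f ∣ F.charpoly := by
  obtain ⟨f', u, hf', hd, h1, h2⟩ := exists_irr F (f ^ k) (pow_ne_zero _ hf.ne_zero) x hx (hk x)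
  have h3 : f' ∣ f := hf'.prime.dvd_of_dvd_pow hd
  exact (hf'.associated_of_dvd hf h3).symm.dvd.trans (dvd_charpoly_of_kill F hf' h1 h2)

lemma simple_of_not_sq [Infinite E] {V : Type*} [AddCommGroup V] [Module E V] [FiniteDimensional E V]
    (F : Module.End E V) {f : E[X]} (hf : Irreducible f) (k : ℕ) (hk : ∀ x, aeval F (f ^ k) x = 0)
    (h2 : ¬ f ^ 2 ∣ F.charpoly) (U : Submodule E V) (hU : ∀ x ∈ U, F x ∈ U) :
    U = ⊥ ∨ U = ⊤ := by
  by_contra hcon
  rw [not_or] at hcon
  obtain ⟨hb, ht⟩ := hcon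
  have hU' : U ≤ U.comap F := hU
  apply h2
  rw [charpoly_eq_mul F U hU', pow_two]
  obtain ⟨x, hx, hx0⟩ := U.ne_bot_iff.1 hb
  have hxx : ∃ y, y ∉ U := by
    by_contra h
    apply ht
    rw [eq_top_iff]
    intro y _
    by_contra hy
    exact h ⟨y, hy⟩
  obtain ⟨y, hy⟩ := hxx
  refine mul_dvd_mul ?_ ?_
  · refine dvd_of_killed (F.restrict hU') hf k (fun z => ?_) (x := ⟨x, hx⟩) ?_
    · apply Subtype.ext
      rw [restrict_aeval, hk]
      rfl
    · exact fun h => hx0 (congrArg Subtype.val h)
  · refine dvd_of_killed (U.mapQ U F hU') hf k (fun z => ?_) (x := U.mkQ y) ?_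
    · obtain ⟨z, rfl⟩ := U.mkQ_surjective z
      rw [← aeval_comm U.mkQ F (U.mapQ U F hU') (fun y => rfl) (f ^ k) z, hk, map_zero]
    · intro h
      exact hy ((Submodule.Quotient.mk_eq_zero U).1 h)

lemma simple_of_inj {V W : Type*} [AddCommGroup V] [Module E V] [AddCommGroup W] [Module E W]
    (T : V →ₗ[E] W) (F : V → V) (G : W → W) (c : E)
    (hT : ∀ x, G (T x) = c • T (F x)) (hinj : Function.Injective T)
    (hW : ∀ U : Submodule E W, (∀ x ∈ U, G x ∈ U) → U = ⊥ ∨ U = ⊤)
    (U : Submodule E V) (hU : ∀ x ∈ U, F x ∈ U) : U = ⊥ ∨ U = ⊤ := by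
  rcases hW (U.map T) (by
    rintro _ ⟨x, hx, rfl⟩
    rw [hT]
    exact Submodule.smul_mem _ _ ⟨F x, hU x hx, rfl⟩) with h | h
  · left
    rw [eq_bot_iff]
    intro x hx
    have h1 : T x ∈ U.map T := ⟨x, hx, rfl⟩
    rw [h, Submodule.mem_bot] at h1
    exact hinj (h1.trans (map_zero T).symm)
  · right
    rw [eq_top_iff]
    intro x _
    have h1 : T x ∈ U.map T := by rw [h]; exact Submodule.mem_top
    obtain ⟨y, hy, hxy⟩ := h1
    rw [← hinj hxy]
    exact hy

lemma simple_of_surj {V W : Type*} [AddCommGroup V] [Module E V] [AddCommGroup W] [Module E W]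
    (T : V →ₗ[E] W) (F : V → V) (G : W → W) (c : E) (hc : c ≠ 0)
    (hT : ∀ x, G (T x) = c • T (F x)) (hsurj : Function.Surjective T)
    (hV : ∀ U : Submodule E V, (∀ x ∈ U, F x ∈ U) → U = ⊥ ∨ U = ⊤)
    (U : Submodule E W) (hU : ∀ x ∈ U, G x ∈ U) : U = ⊥ ∨ U = ⊤ := by
  rcases hV (U.comap T) (fun x hx => by
    have h1 : T (F x) = c⁻¹ • G (T x) := by rw [hT, smul_smul, inv_mul_cancel₀ hc, one_smul]
    rw [Submodule.mem_comap, h1]
    exact U.smul_mem _ (hU _ hx)) with h | h
  · left
    rw [eq_bot_iff]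
    intro y hy
    obtain ⟨x, rfl⟩ := hsurj y
    have h1 : x ∈ U.comap T := hy
    rw [h, Submodule.mem_bot] at h1
    rw [h1, map_zero]
    exact Submodule.zero_mem _
  · right
    rw [eq_top_iff]
    intro y _
    obtain ⟨x, rfl⟩ := hsurj y
    have h1 : x ∈ U.comap T := by rw [h]; exact Submodule.mem_top
    exact h1

end Generalities

variable {E : Type} [Field E] {D : Strata E} {n q : ℕ}

/-- the normalised Frobenius endomorphism -/
noncomputable def nf (D : Strata E) (q a w : ℕ) : Module.End E (D.V a w) :=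
  ((q : E) ^ ((w - a) / 2))⁻¹ • D.frob a w

lemma nf_apply (a w : ℕ) (x : D.V a w) : nf D q a w x = ((q : E) ^ ((w - a) / 2))⁻¹ • phi x := rfl

lemma rho_nf (hF : D.IsFrobenius q) {a w : ℕ} (x : D.V a w) :
    rho (nf D q a w x) = nf D q (a + 1) (w + 1) (rho x) := by
  rw [nf_apply, nf_apply, rho_smul, phi_rho hF, Nat.add_sub_add_right]

lemma gam_nf (hq : (q : E) ≠ 0) (hb : D.IsBounded n) (hF : D.IsFrobenius q) {a w : ℕ}
    (x : D.V (a + 1) w) : gam (nf D q (a + 1) w x) = nf D q a (w + 1) (gam x) := by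
  by_cases hw : w < a + 1
  · have h0 : x = 0 := hb.neg _ _ x hw
    rw [h0, map_zero, gam_zero, map_zero]
  · rw [nf_apply, nf_apply, gam_smul, phi_gam hF, smul_smul]
    congr 1
    have h1 : (w + 1 - a) / 2 = (w - (a + 1)) / 2 + 1 := by omega
    rw [h1, pow_succ, mul_inv, mul_assoc, inv_mul_cancel₀ hq, mul_one]

lemma lam_nf (hq : (q : E) ≠ 0) (hb : D.IsBounded n) (hF : D.IsFrobenius q) {a w : ℕ}
    (x : D.V a w) : lam (nf D q a w x) = nf D q a (w + 2) (lam x) := by
  by_cases hw : w < a
  · have h0 : x = 0 := hb.neg _ _ x hw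
    rw [h0, map_zero, lam_zero, map_zero]
  · have h2 : phi (lam x) = (q : E) • lam (phi x) := hF.lef a w x
    have h3 : ∀ (c : E) (y : D.V a w), lam (c • y) = c • lam y := fun c y =>
      map_smul (D.lef a w) c y
    rw [nf_apply, nf_apply, h3, h2, smul_smul]
    congr 1
    have h1 : (w + 2 - a) / 2 = (w - a) / 2 + 1 := by omega
    rw [h1, pow_succ, mul_inv, mul_assoc, inv_mul_cancel₀ hq, mul_one]

lemma phi_nf {a w : ℕ} (x : D.V a w) : phi (nf D q a w x) = nf D q a w (phi x) := by
  rw [nf_apply, nf_apply, phi_smul]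

/-- some polynomial kills everything -/
lemma exists_kill (hb : D.IsBounded n) (ha : D.VanishesAbove n) :
    ∃ g : E[X], g ≠ 0 ∧ ∀ a w, aeval (nf D q a w) g = 0 := by
  classical
  refine ⟨∏ a ∈ range (n + 1), ∏ w ∈ range (2 * n + 1), (nf D q a w).charpoly, ?_, ?_⟩
  · exact Finset.prod_ne_zero_iff.2 fun a _ => Finset.prod_ne_zero_iff.2 fun w _ =>
      (LinearMap.charpoly_monic _).ne_zero
  · intro a w
    by_cases h : a ≤ n ∧ w ≤ 2 * n
    · obtain ⟨p, hp⟩ : (nf D q a w).charpoly ∣
          ∏ a ∈ range (n + 1), ∏ w ∈ range (2 * n + 1), (nf D q a w).charpoly :=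
        (Finset.dvd_prod_of_mem (fun w => (nf D q a w).charpoly)
          (mem_range.2 (by omega : w < 2 * n + 1))).trans
          (Finset.dvd_prod_of_mem (fun a => ∏ w ∈ range (2 * n + 1), (nf D q a w).charpoly)
            (mem_range.2 (by omega : a < n + 1)))
      rw [hp, map_mul, LinearMap.aeval_self_charpoly, zero_mul]
    · apply LinearMap.ext
      intro x
      have h0 : x = 0 := by
        by_cases h1 : a ≤ n
        · exact ha a w x (by omega)
        · exact hb.empty a w x (by omega)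
      rw [h0, map_zero, map_zero]

/-- The data used here: everything but the duality. -/
structure Strata.IsBase (D : Strata E) (n q : ℕ) : Prop where
  complex : D.IsComplex
  bounded : D.IsBounded n
  above : D.VanishesAbove n
  lefschetz : D.IsLefschetz n
  frobenius : D.IsFrobenius q
  generic : D.GenericLefschetz n

/-- One class of eigenvalues. -/
theorem class_fill [CharZero E] (hq : q ≠ 0) (hD : D.IsBase n q) {s v : ℕ} (hv : v + 1 ≤ n) (f : E[X])
    (hf : Irreducible f)
    (hs : ∀ a w (hc : ((q : E) ^ ((w - (a + 1)) / 2)) ≠ 0), (w = n ∨ w + 1 = n) →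
      (w + (a + 1)) % 2 = (v + s) % 2 → ¬ (twist _ hc f) ^ 2 ∣ (D.frob (a + 1) w).charpoly)
    (m : D.V s v) (hm : gam (rho m) = 0) (hfm : aeval (nf D q (s + 1) (v + 1)) f (rho m) = 0) :
    rho m = 0 := by
  classical
  have hq' : (q : E) ≠ 0 := Nat.cast_ne_zero.2 hq
  obtain ⟨g, hg0, hg⟩ := exists_kill (q := q) hD.bounded hD.above
  obtain ⟨h, hgh, hfh⟩ := FiniteMultiplicity.exists_eq_pow_mul_and_not_dvd
    (FiniteMultiplicity.of_not_isUnit hf.not_isUnit hg0)
  set k := multiplicity f g with hk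
  have hcop : IsCoprime (f ^ (k + 1)) h :=
    IsCoprime.pow_left ((EuclideanDomain.dvd_or_coprime _ _ hf).resolve_left hfh)
  obtain ⟨a1, b1, hab⟩ := hcop
  set ε := b1 * h with hε
  set π := (v + s) % 2 with hπ
  let e : ∀ a w, D.Hom a w a w := fun a w =>
    if (w + a) % 2 = π then aeval (nf D q a w) ε else 0
  have e_pos : ∀ {a w : ℕ} (_ : (w + a) % 2 = π) (x : D.V a w),
      e a w x = aeval (nf D q a w) ε x := by
    intro a w h x
    change (if (w + a) % 2 = π then aeval (nf D q a w) ε else 0) x = _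
    rw [if_pos h]
  have e_neg : ∀ {a w : ℕ} (_ : ¬ (w + a) % 2 = π) (x : D.V a w), e a w x = 0 := by
    intro a w h x
    change (if (w + a) % 2 = π then aeval (nf D q a w) ε else 0) x = _
    rw [if_neg h]
    rfl
  have hε2 : ∀ a w (x : D.V a w), aeval (nf D q a w) ε (aeval (nf D q a w) ε x) =
      aeval (nf D q a w) ε x := by
    intro a w x
    rw [← Module.End.mul_apply, ← map_mul]
    have h1 : ε * ε = ε - a1 * b1 * f * g := by
      have h2 : b1 * h = 1 - a1 * f ^ (k + 1) := by rw [← hab]; ring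
      calc ε * ε = b1 * h * (b1 * h) := rfl
        _ = b1 * h * (1 - a1 * f ^ (k + 1)) := by rw [h2]
        _ = b1 * h - a1 * b1 * f * (f ^ k * h) := by ring
        _ = _ := by rw [← hgh]
    have h3 : aeval (nf D q a w) (a1 * b1 * f * g) = 0 := by rw [map_mul, hg, mul_zero]
    rw [h1, map_sub, h3, sub_zero]
  have hcut : IsCut D e := by
    constructor
    · intro a w x
      by_cases hp : (w + a) % 2 = π
      · rw [e_pos hp, e_pos hp, hε2]
      · rw [e_neg hp, e_neg hp]
    · intro a w x
      by_cases hp : (w + a) % 2 = π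
      · have hp' : (w + 1 + (a + 1)) % 2 = π := by omega
        rw [e_pos hp, e_pos hp']
        exact (aeval_comm (D.res a w) (nf D q a w) (nf D q (a + 1) (w + 1))
          (rho_nf hD.frobenius) ε x).symm
      · have hp' : ¬ (w + 1 + (a + 1)) % 2 = π := by omega
        rw [e_neg hp, e_neg hp', rho_zero]
    · intro a w x
      by_cases hp : (w + (a + 1)) % 2 = π
      · have hp' : (w + 1 + a) % 2 = π := by omega
        rw [e_pos hp, e_pos hp']
        exact (aeval_comm (D.gys a w) (nf D q (a + 1) w) (nf D q a (w + 1))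
          (gam_nf hq' hD.bounded hD.frobenius) ε x).symm
      · have hp' : ¬ (w + 1 + a) % 2 = π := by omega
        rw [e_neg hp, e_neg hp', gam_zero]
    · intro a w x
      by_cases hp : (w + a) % 2 = π
      · have hp' : (w + 2 + a) % 2 = π := by omega
        rw [e_pos hp, e_pos hp']
        exact (aeval_comm (D.lef a w) (nf D q a w) (nf D q a (w + 2))
          (lam_nf hq' hD.bounded hD.frobenius) ε x).symm
      · have hp' : ¬ (w + 2 + a) % 2 = π := by omega
        rw [e_neg hp, e_neg hp', lam_zero]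
    · intro a w x
      by_cases hp : (w + a) % 2 = π
      · rw [e_pos hp, e_pos hp]
        exact (aeval_comm (D.frob a w) (nf D q a w) (nf D q a w) phi_nf ε x).symm
      · rw [e_neg hp, e_neg hp]
        exact (map_zero (D.frob a w)).symm
  have hLS := cut_lef hcut hD.lefschetz
  have hFS := cut_frob hcut hD.frobenius
  have hnfS : ∀ a w (p : E[X]) (x : (cut hcut).V a w),
      inc hcut (aeval (nf (cut hcut) q a w) p x) = aeval (nf D q a w) p (inc hcut x) := by
    intro a w p x
    exact aeval_comm (LinearMap.range (e a w)).subtype (nf (cut hcut) q a w) (nf D q a w)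
      (fun y => rfl) p x
  -- the polynomial `f ^ k` kills the direct summand
  have hkill : ∀ a w (x : (cut hcut).V a w), aeval (nf (cut hcut) q a w) (f ^ k) x = 0 := by
    rintro a w ⟨_, x, rfl⟩
    apply inc_inj hcut
    refine (hnfS a w (f ^ k) _).trans ?_
    change aeval (nf D q a w) (f ^ k) (e a w x) = 0
    by_cases hp : (w + a) % 2 = π
    · rw [e_pos hp, ← Module.End.mul_apply, ← map_mul, hε,
        show f ^ k * (b1 * h) = b1 * (f ^ k * h) by ring, ← hgh, map_mul, hg, mul_zero,
        LinearMap.zero_apply]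
    · rw [e_neg hp, map_zero]
  -- the middle degrees
  have hmid : ∀ a w, (w = n ∨ w + 1 = n) → ∀ U : Submodule E ((cut hcut).V (a + 1) w),
      (∀ x ∈ U, phi x ∈ U) → U = ⊥ ∨ U = ⊤ := by
    intro a w hw U hU
    by_cases hp : (w + (a + 1)) % 2 = π
    · have hc : ((q : E) ^ ((w - (a + 1)) / 2)) ≠ 0 := pow_ne_zero _ hq'
      refine simple_of_not_sq ((cut hcut).frob (a + 1) w) (twist_irreducible hc hf) k ?_ ?_ U hU
      · intro x
        rw [← map_pow, aeval_twist]
        exact hkill (a + 1) w x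
      · intro hdvd
        apply hs a w hc hw hp
        refine hdvd.trans ?_
        have h1 : LinearMap.range (e (a + 1) w) ≤
            (LinearMap.range (e (a + 1) w)).comap (D.frob (a + 1) w) := by
          rintro _ ⟨x, rfl⟩
          exact ⟨phi x, hcut.frob _ _ x⟩
        rw [charpoly_eq_mul (D.frob (a + 1) w) _ h1]
        exact dvd_mul_right _ _
    · left
      rw [eq_bot_iff]
      intro y _
      refine (Submodule.mem_bot E).2 (inc_inj hcut ?_)
      exact (e_inc hcut y).symm.trans (e_neg hp _)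
  have hphipow : ∀ {a w : ℕ} (r : ℕ) (x : (cut hcut).V a w),
      phi (pow r x) = (q : E) ^ r • pow r (phi x) := fun r x => phi_pow hFS r x
  have hlow : ∀ a w, w ≤ n → ∀ U : Submodule E ((cut hcut).V (a + 1) w),
      (∀ x ∈ U, phi x ∈ U) → U = ⊥ ∨ U = ⊤ := by
    intro a w hw
    obtain ⟨j, s', hj, hs'⟩ : ∃ j s', w + (j + s') = n ∧ (w + 2 * j = n ∨ w + 2 * j + 1 = n) :=
      ⟨(n - w) / 2, n - w - (n - w) / 2, by omega, by omega⟩
    refine simple_of_inj (powM (cut hcut) j (a + 1) w) phi phi ((q : E) ^ j)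
      (fun x => hphipow j x) ?_ (hmid a (w + 2 * j) hs')
    intro x y hxy
    rw [← sub_eq_zero]
    apply pow_injective hLS hj
    rw [pow_sub', sub_eq_zero]
    exact hxy
  have hSL : SimpleLevels (cut hcut) n q π :=
    { complex := cut_complex hcut hD.complex
      lef := hLS
      frob := hFS
      generic := cut_generic hcut hD.generic
      hq := hq'
      above := fun a w x hx => inc_inj hcut (hD.above a w (inc hcut x) hx)
      empty := fun a w x hx => inc_inj hcut (hD.bounded.empty a w (inc hcut x) hx)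
      parity := by
        rintro a w ⟨_, x, rfl⟩ hx
        apply inc_inj hcut
        exact e_neg hx x
      simple := by
        intro a w
        rcases le_or_gt w n with hw | hw
        · exact hlow a w hw
        · by_cases hw2 : w ≤ 2 * n
          · obtain ⟨w', r, h1, h2⟩ : ∃ w' r, w' + r = n ∧ w' + 2 * r = w :=
              ⟨2 * n - w, w - n, by omega, by omega⟩
            subst h2
            exact simple_of_surj (powM (cut hcut) r (a + 1) w') phi phi ((q : E) ^ r)
              (pow_ne_zero _ hq') (fun x => hphipow r x) (hLS.bij (a + 1) w' r h1).2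
              (hlow a w' (by omega))
          · intro U _
            left
            rw [eq_bot_iff]
            intro x _
            exact (Submodule.mem_bot E).2
              (inc_inj hcut (hD.above (a + 1) w (inc hcut x) (by omega))) }
  have h1 : gam (rho (prj hcut m)) = 0 := by
    rw [← prj_rho, ← prj_gam, hm, prj_zero]
  have h2 := class_zero hSL hv (prj hcut m) h1
  rw [← prj_rho] at h2
  have h3 : e (s + 1) (v + 1) (rho m) = 0 := congrArg (inc hcut) h2
  rw [e_pos (by omega)] at h3
  have h4 : aeval (nf D q (s + 1) (v + 1)) (a1 * f ^ (k + 1) + b1 * h) (rho m) = rho m := by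
    rw [hab, map_one, Module.End.one_apply]
  rw [map_add, LinearMap.add_apply] at h4
  have h5 : aeval (nf D q (s + 1) (v + 1)) (a1 * f ^ (k + 1)) (rho m) = 0 := by
    rw [pow_succ, ← mul_assoc, map_mul, Module.End.mul_apply, hfm, map_zero]
  rw [h5, zero_add] at h4
  rw [← h4]
  exact h3

end Pool.Agent.W522.M
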