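import Mathlib
import Pool.Agent.W522.N.H2

/-! The part spanned by algebraic cycles of codimension `0` and `1`, at all levels. -/

set_option autoImplicit false

namespace Pool.Agent.W522.M

open Polynomial Module

variable {E : Type} [Field E] [CharZero E] {D : Strata E} {n : ℕ}

omit [CharZero E] in
lemma ip_pow_congr {a w v r r' : ℕ} (h : r = r') (x : D.V a w) (y : D.V a v) :
    ip x (pow r y) = ip x (pow r' y) := by
  subst h
  rfl

omit [CharZero E] in
lemma pow_zero_congr {a w r r' : ℕ} (h : r = r') {x : D.V a w} (hx : pow r x = 0) :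
    pow r' x = 0 := by
  subst h
  exact hx

/-- divisors -/
theorem divisor_fill {s N : ℕ} (hn : s + N + 3 = n) (hC : D.IsComplex) (hL : D.IsLefschetz n)
    (hd : D.IsDuality n) (A : D.Cycles)
    (hA : A.Stable) (hc : A.Components n) (hr : A.Rational n)
    (hH : A.HodgeIndex n)
    (m : D.V s (s + 2)) (hm : m ∈ A.span s (s + 2)) (h0 : gam (rho m) = 0) :
    ∃ k : D.V (s + 2) (s + 2), rho k = 0 ∧ rho m = gam k := by
  letI : ∀ a w, Module ℚ (D.V a w) := fun a w => Module.compHom _ (algebraMap ℚ E)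
  let Cq : ∀ a w, Submodule ℚ (D.V a w) := fun a w =>
    { (A.C a w) with
      smul_mem' := fun r x hx => A.smul a w r x hx }
  have hfin : ∀ a, FiniteDimensional ℚ (Cq a a) := by
    intro a
    obtain ⟨t, hs⟩ := hc.finite a
    have h1 : Cq a a ≤ Submodule.span ℚ (t : Set (D.V a a)) := by
      intro x hx
      obtain ⟨c, hc⟩ := hs x hx
      rw [hc]
      exact Submodule.sum_mem _ fun y hy => Submodule.smul_mem _ (c y) (Submodule.subset_span hy)
    exact Submodule.finiteDimensional_of_le h1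
  have := hfin (s + 1)
  have := hfin (s + 2)
  let u : ℕ := s + 2 + 2 * (N + 1)
  have hu : u = s + 2 + 2 * (N + 1) := rfl
  have e1 : s + 3 + 2 * (N + 1) = u + 1 := by omega
  have e2 : s + 3 + 2 * N + 1 = u := by omega
  let r00 : D.V s s →ₗ[E] D.V (s + 1) (s + 1) := D.res s s
  let r02 : D.V s (s + 2) →ₗ[E] D.V (s + 1) (s + 3) := D.res s (s + 2)
  let r04 : D.V s u →ₗ[E] D.V (s + 1) (u + 1) := D.res s u
  let r11 : D.V (s + 1) (s + 1) →ₗ[E] D.V (s + 2) (s + 2) := D.res (s + 1) (s + 1)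
  let r13 : D.V (s + 1) (s + 3) →ₗ[E] D.V (s + 2) (s + 4) := D.res (s + 1) (s + 3)
  let r22 : D.V (s + 2) (s + 2) →ₗ[E] D.V (s + 3) (s + 3) := D.res (s + 2) (s + 2)
  let g11 : D.V (s + 1) (s + 1) →ₗ[E] D.V s (s + 2) := D.gys s (s + 1)
  let g13 : D.V (s + 1) (s + 3) →ₗ[E] D.V s u :=
    (tr e2).toLinearMap.comp ((D.gys s (s + 3 + 2 * N)).comp (powM D N (s + 1) (s + 3)))
  let g15 : D.V (s + 1) (u + 1) →ₗ[E] D.V s (u + 2) := D.gys s (u + 1)
  let g22 : D.V (s + 2) (s + 2) →ₗ[E] D.V (s + 1) (s + 3) := D.gys (s + 1) (s + 2)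
  let g24 : D.V (s + 2) u →ₗ[E] D.V (s + 1) (u + 1) := D.gys (s + 1) u
  let l00 : D.V s s →ₗ[E] D.V s (s + 2) := D.lef s s
  let l02 : D.V s (s + 2) →ₗ[E] D.V s u := powM D (N + 1) s (s + 2)
  let l04 : D.V s u →ₗ[E] D.V s (u + 2) := D.lef s u
  let l11 : D.V (s + 1) (s + 1) →ₗ[E] D.V (s + 1) (s + 3) := D.lef (s + 1) (s + 1)
  let l13 : D.V (s + 1) (s + 3) →ₗ[E] D.V (s + 1) (u + 1) :=
    (tr e1).toLinearMap.comp (powM D (N + 1) (s + 1) (s + 3))
  let l22 : D.V (s + 2) (s + 2) →ₗ[E] D.V (s + 2) u := powM D (N + 1) (s + 2) (s + 2)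
  let p33 : D.V (s + 1) (s + 3) →ₗ[E] D.V (s + 1) (s + 3) →ₗ[E] E :=
    (D.pair (s + 1) (s + 3) (s + 3 + 2 * N)).compl₂ (powM D N (s + 1) (s + 3))
  have hp33 : ∀ x y, p33 x y = ip x (pow N y) := fun x y => rfl
  have hl13 : ∀ x, l13 x = tr e1 (pow (N + 1) x) := fun x => rfl
  have hg13 : ∀ x, g13 x = tr e2 (gam (pow N x)) := fun x => rfl
  have symm33 : ∀ x y : D.V (s + 1) (s + 3), p33 x y = p33 y x := by
    intro x y
    rw [hp33, hp33, ← ip_pow hd, hd.symm]
    have : Even (s + 3 + 2 * N + (s + 1)) := ⟨s + N + 2, by ring⟩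
    rw [this.neg_one_pow, one_mul]
  have symm1 : ∀ (v : ℕ) (x : D.V (s + 1) (s + 1)) (y : D.V (s + 1) v), ip x y = ip y x := by
    intro v x y
    rw [hd.symm, Even.neg_one_pow ⟨s + 1, rfl⟩, one_mul]
  have symm0 : ∀ (v : ℕ) (x : D.V s s) (y : D.V s v), ip x y = ip y x := by
    intro v x y
    rw [hd.symm, Even.neg_one_pow ⟨s, rfl⟩, one_mul]
  have hratpos : ∀ r : ℚ, (r : E) = 0 → r = 0 := fun r h => Rat.cast_eq_zero.1 h
  have n11 : ∀ y : D.V (s + 1) (u + 1),
      (∀ t ∈ Cq (s + 1) (s + 1), D.pair (s + 1) (s + 1) (u + 1) t y = 0) → y = 0 := by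
    intro y hy
    apply hd.nondeg (s + 1) (u + 1) (s + 1) (by omega) y
    intro t
    have h1 : t ∈ Submodule.span E (A.C (s + 1) (s + 1) : Set (D.V (s + 1) (s + 1))) := by
      have := hc.span (s + 1)
      unfold Strata.Cycles.span at this
      rw [this]
      exact Submodule.mem_top
    have h2 : Submodule.span E (A.C (s + 1) (s + 1) : Set (D.V (s + 1) (s + 1))) ≤
        LinearMap.ker (D.pair (s + 1) (u + 1) (s + 1) y) := by
      rw [Submodule.span_le]
      intro t ht
      rw [SetLike.mem_coe, LinearMap.mem_ker]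
      exact (symm1 _ t y).symm.trans (hy t ht)
    exact h2 h1
  have halg13 : ∀ z : D.V (s + 1) (s + 3), A.Alg z → A.Alg (l13 z) := by
    intro z hz
    rw [hl13]
    have : ∀ {w w' : ℕ} (h : w = w') (x : D.V (s + 1) w), A.Alg x → A.Alg (tr h x) := by
      intro w w' h x hx
      subst h
      exact hx
    exact this _ _ (alg_pow hA _ hz)
  have rat1 : ∀ x ∈ Cq (s + 1) (s + 1), ∀ y ∈ Cq (s + 1) (s + 1),
      ∃ r : ℚ, D.pair (s + 1) (s + 1) (u + 1) x (l13 (l11 y)) = r :=
    fun x hx y hy => hr (s + 1) (s + 1) (u + 1) (by omega) x _ hx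
      (halg13 _ (hA.lef (s + 1) (s + 1) _ hy))
  have hpow1 : ∀ x : D.V (s + 1) (s + 1), ip x (l13 (l11 x)) = ip x (pow (n - (s + 1)) x) := by
    intro x
    change ip x (l13 (lam x)) = _
    rw [hl13, pow_lam, ip_tr_right, ip_tr_right]
    exact ip_pow_congr (by omega) x x
  have pos1 : ∀ x ∈ Cq (s + 1) (s + 1), D.pair (s + 1) (s + 1) (u + 1) x (l13 (l11 x)) = 0 →
      x = 0 := by
    intro x hx h
    by_contra hne
    obtain ⟨r, hr0, hr1⟩ := hc.pos (s + 1) (by omega) x hx hne
    have h2 : (r : E) = 0 := by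
      rw [← hr1, ← hpow1]
      exact h
    exact hr0.ne' (hratpos r h2)
  have htop : ∀ y : D.V (s + 1) (u + 1), A.Alg y →
      ∃ t ∈ Cq (s + 1) (s + 1), y = l13 (l11 t) := by
    intro y hy
    obtain ⟨t, ht, h⟩ := riesz_of_pos (D.pair (s + 1) (s + 1) (u + 1)) (l13.comp l11)
      (Cq (s + 1) (s + 1)) rat1 pos1 y
      (fun x hx => hr (s + 1) (s + 1) (u + 1) (by omega) x y hx hy)
    refine ⟨t, ht, sub_eq_zero.1 (n11 _ fun x hx => ?_)⟩
    rw [map_sub, h x hx]
    exact sub_self _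
  have main : ∀ c ∈ Cq s (s + 2), (∀ m' ∈ Cq s (s + 2), p33 (r02 c) (r02 m') = 0) →
      ∃ k ∈ Cq (s + 2) (s + 2), r22 k = 0 ∧ r02 c = g22 k := by
    intro c hcc hN
    refine rational_part' r00 r02 r04 r11 r13 r22 g11 g13 g15 g22 g24 l00 l02 l04 l11 l13 l22
      (D.pair s s (u + 2)) (D.pair s (s + 2) u) (D.pair (s + 1) (s + 1) (u + 1)) p33
      (D.pair (s + 2) (s + 2) u)
      (Cq s s) (Cq (s + 1) (s + 1)) (Cq (s + 2) (s + 2)) (Cq s (s + 2)) (Cq (s + 1) (s + 3))
      (hC.res_res s s) (hC.res_res s (s + 2)) (hC.res_res (s + 1) (s + 1))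
      (hC.gys_res s (s + 1)) ?rg
      (hL.lef_res s s) ?lr2 ?lg1 ?lg3 ?lg2
      (hd.adj s s (u + 1)) ?a4 (fun t y => (hd.adj (s + 1) (s + 1) u t y).symm) ?a3
      ?la symm33 ?n11 ?n00
      (hA.res s s) (hA.res (s + 1) (s + 1)) (hA.gys s (s + 1)) (hA.lef s s)
      (hA.res s (s + 2)) (hA.gys (s + 1) (s + 2))
      ?rat1 ?rat2 ?pos1 ?pos2 ?top1 ?top2 ?H0 ?H1 c hcc hN
    case rg =>
      intro k hk
      have h1 : gam (rho k) + rho (gam k) = 0 := hC.gys_res (s + 1) (s + 2) k
      have h2 : gam (rho k) = 0 := by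
        have h3 : rho k = 0 := hk
        rw [h3]
        exact map_zero (D.gys (s + 2) (s + 3))
      rw [h2, zero_add] at h1
      exact h1
    case lr2 =>
      intro x
      change l13 (rho x) = rho (pow (N + 1) x)
      rw [hl13, pow_rho hL, tr_tr]
      rfl
    case lg1 =>
      intro x
      change pow (N + 1) (gam x) = g13 (lam x)
      rw [hg13, pow_lam, gam_tr, tr_tr, pow_gam hL]
    case lg3 =>
      intro x
      change lam (g13 x) = gam (l13 x)
      rw [hg13, hl13, lam_tr, gam_tr, hL.lef_gys]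
      rfl
    case lg2 =>
      intro x
      change l13 (gam x) = gam (pow (N + 1) x)
      rw [hl13, pow_gam hL, tr_tr]
      rfl
    case a4 =>
      intro t w
      change ip t (rho w) = ip (gam t) w
      rw [adj' hd]
    case a3 =>
      intro z k hz
      have h2 : rho z = 0 := hz
      change p33 z (gam k) = 0
      rw [hp33, pow_gam hL, ip_tr_right, ← hd.adj, h2, ip_zero_left]
    case la =>
      intro t z
      change ip t (l13 z) = p33 (lam t) z
      rw [hl13, hp33, ip_tr_right, ip_lam hd]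
      rfl
    case n11 => exact n11
    case n00 =>
      intro y hy
      apply hd.nondeg s (u + 2) s (by omega) y
      intro t
      have h1 : t ∈ Submodule.span E (A.C s s : Set (D.V s s)) := by
        have := hc.span s
        unfold Strata.Cycles.span at this
        rw [this]
        exact Submodule.mem_top
      have h2 : Submodule.span E (A.C s s : Set (D.V s s)) ≤
          LinearMap.ker (D.pair s (u + 2) s y) := by
        rw [Submodule.span_le]
        intro t ht
        rw [SetLike.mem_coe, LinearMap.mem_ker]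
        exact (symm0 _ t y).symm.trans (hy t ht)
      exact h2 h1
    case rat1 => exact rat1
    case rat2 =>
      intro x hx y hy
      exact hr (s + 2) (s + 2) u (by omega) x _ hx (alg_pow hA (N + 1) hy)
    case pos1 => exact pos1
    case pos2 =>
      intro x hx h
      by_contra hne
      obtain ⟨r, hr0, hr1⟩ := hc.pos (s + 2) (by omega) x hx hne
      have h2 : (r : E) = 0 := by
        rw [← hr1]
        rw [ip_pow_congr (r' := N + 1) (by omega) x x]
        exact h
      exact hr0.ne' (hratpos r h2)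
    case top1 =>
      intro z hz
      exact htop _ (halg13 _ hz)
    case top2 =>
      intro k hk
      exact htop _ (hA.gys (s + 1) u _ (alg_pow hA (N + 1) hk))
    case H0 =>
      intro d hdC h1 h2
      by_contra hne
      have h1' : pow (N + 2) d = 0 := h1
      obtain ⟨r, hr0, hr1⟩ := hH s (by omega) d hdC (pow_zero_congr (by omega) h1') hne
      have h3 : (r : E) = 0 := by
        rw [← hr1, ip_pow_congr (r' := N + 1) (by omega) d d]
        exact h2
      exact hr0.ne (hratpos r h3)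
    case H1 =>
      intro z hz h1 h2
      by_contra hne
      have h1' : pow (N + 1) z = 0 := (tr e1).injective (h1.trans (map_zero _).symm)
      obtain ⟨r, hr0, hr1⟩ := hH (s + 1) (by omega) z hz (pow_zero_congr (by omega) h1') hne
      have h3 : (r : E) = 0 := by
        rw [← hr1, ip_pow_congr (r' := N) (by omega) z z]
        exact h2
      exact hr0.ne (hratpos r h3)
  have hN : ∀ m' : D.V s (s + 2), p33 (r02 m) (r02 m') = 0 := by
    intro m'
    change p33 (rho m) (rho m') = 0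
    rw [hp33, pow_rho hL, ip_tr_right, ← adj' hd, h0, ip_zero_left]
  have hspan := span_descent (Cq s (s + 2))
    (fun j : Cq s (s + 2) => (p33.flip (r02 j)).comp r02)
    (fun j c hcc => hr (s + 1) (s + 3) (s + 3 + 2 * N) (by omega) _ _
      (hA.res s (s + 2) _ hcc) (alg_pow hA N (hA.res s (s + 2) _ j.2))) m hm (fun j => hN j)
  have hle : Submodule.span E {c | c ∈ Cq s (s + 2) ∧
      ∀ j : Cq s (s + 2), ((p33.flip (r02 j)).comp r02) c = 0} ≤
      ((LinearMap.ker r22).map g22).comap r02 := by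
    rw [Submodule.span_le]
    rintro c ⟨hcc, hj⟩
    obtain ⟨k, -, hk, e⟩ := main c hcc fun m' hm' => hj ⟨m', hm'⟩
    exact ⟨k, hk, e.symm⟩
  obtain ⟨k, hk, e⟩ := hle hspan
  exact ⟨k, hk, e.symm⟩

/-- components -/
theorem component_fill {s k : ℕ} (hn : s + 1 + k = n) (hL : D.IsLefschetz n)
    (hd : D.IsDuality n) (A : D.Cycles) (hA : A.Stable) (hc : A.Components n) (hr : A.Rational n)
    (m : D.V s s) (h0 : gam (rho m) = 0) : rho m = 0 := by
  letI : ∀ a w, Module ℚ (D.V a w) := fun a w => Module.compHom _ (algebraMap ℚ E)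
  let Cq : Submodule ℚ (D.V s s) :=
    { (A.C s s) with
      smul_mem' := fun r x hx => A.smul s s r x hx }
  let r00 : D.V s s →ₗ[E] D.V (s + 1) (s + 1) := D.res s s
  let p : D.V (s + 1) (s + 1) →ₗ[E] D.V (s + 1) (s + 1) →ₗ[E] E :=
    (D.pair (s + 1) (s + 1) (s + 1 + 2 * k)).compl₂ (powM D k (s + 1) (s + 1))
  have hp : ∀ x y, p x y = ip x (pow k y) := fun x y => rfl
  have hm : m ∈ Submodule.span E (Cq : Set (D.V s s)) := by
    have := hc.span s
    unfold Strata.Cycles.span at this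
    have h1 : m ∈ Submodule.span E (A.C s s : Set (D.V s s)) := by
      rw [this]
      exact Submodule.mem_top
    exact h1
  have hN : ∀ m' : D.V s s, p (r00 m) (r00 m') = 0 := by
    intro m'
    change p (rho m) (rho m') = 0
    rw [hp, pow_rho hL, ip_tr_right, ← adj' hd, h0, ip_zero_left]
  have hspan := span_descent Cq (fun j : Cq => (p.flip (r00 j)).comp r00)
    (fun j c hcc => hr (s + 1) (s + 1) (s + 1 + 2 * k) (by omega) _ _
      (hA.res s s _ hcc) (alg_pow hA k (hA.res s s _ j.2))) m hm (fun j => hN j)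
  have hle : Submodule.span E {c | c ∈ Cq ∧ ∀ j : Cq, ((p.flip (r00 j)).comp r00) c = 0} ≤
      LinearMap.ker r00 := by
    rw [Submodule.span_le]
    rintro c ⟨hcc, hj⟩
    change r00 c = 0
    by_contra hne
    obtain ⟨r, hr0, hr1⟩ := hc.pos (s + 1) (by omega) (rho c) (hA.res s s c hcc) hne
    have h1 : p (r00 c) (r00 c) = 0 := hj ⟨c, hcc⟩
    have h2 : (r : E) = 0 := by
      rw [← hr1, ip_pow_congr (r' := k) (by omega)]
      exact h1
    exact hr0.ne' (Rat.cast_eq_zero.1 h2)
  exact hle hspan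

end Pool.Agent.W522.M
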