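import Mathlib
import Pool.Agent.W522.G.Defs
import Pool.Agent.W522.G.G5
import Pool.Agent.W522.G.G6

/-! Multiplicity one: assembly. -/

set_option autoImplicit false

namespace Pool.Agent.W522.M

open Polynomial Module Finset Pool.Agent.W522.C

variable {E : Type} [Field E] [CharZero E] {D : Strata E} {n q : ℕ}

omit [CharZero E] in
lemma Strata.IsProjective.base (h : D.IsProjective n q) : D.IsBase n q where
  complex := h.complex
  bounded := h.bounded
  above := h.above
  lefschetz := h.lefschetz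
  frobenius := h.frobenius
  generic := h.generic

/-- the part killed by a polynomial all whose irreducible factors are simple -/
theorem nt_fill (hq : q ≠ 0) (hD : D.IsBase n q) {s v : ℕ} (hv : v + 1 ≤ n) (m : D.V s v)
    (hm : gam (rho m) = 0) (h : E[X]) (hh : h ≠ 0)
    (hx : aeval (nf D q (s + 1) (v + 1)) h (rho m) = 0)
    (hs : ∀ f : E[X], Irreducible f → f ∣ h → ∀ a w (hc : ((q : E) ^ ((w - (a + 1)) / 2)) ≠ 0),
      (w = n ∨ w + 1 = n) → (w + (a + 1)) % 2 = (v + s) % 2 →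
        ¬ (twist _ hc f) ^ 2 ∣ (D.frob (a + 1) w).charpoly) : rho m = 0 := by
  have hq' : (q : E) ≠ 0 := Nat.cast_ne_zero.2 hq
  by_contra hne
  obtain ⟨f, u, hf, hfh, hu, hfu⟩ := exists_irr (nf D q (s + 1) (v + 1)) h hh (rho m) hne hx
  have e1 : rho (aeval (nf D q s v) u m) = aeval (nf D q (s + 1) (v + 1)) u (rho m) :=
    aeval_comm (D.res s v) (nf D q s v) (nf D q (s + 1) (v + 1)) (rho_nf hD.frobenius) u m
  have e2 : gam (aeval (nf D q (s + 1) (v + 1)) u (rho m)) =
      aeval (nf D q s (v + 1 + 1)) u (gam (rho m)) :=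
    aeval_comm (D.gys s (v + 1)) (nf D q (s + 1) (v + 1)) (nf D q s (v + 1 + 1))
      (gam_nf hq' hD.bounded hD.frobenius) u (rho m)
  apply hu
  rw [← e1]
  refine class_fill hq hD hv f hf (hs f hf hfh) _ ?_ ?_
  · rw [e1, e2, hm, map_zero]
  · rw [e1, hfu]

lemma not_sq_of_mult (hb : D.IsBounded n) (hM : D.MultiplicityOne n q) {f : E[X]}
    (hf : Irreducible f) {a w : ℕ} (hc : ((q : E) ^ ((w - (a + 1)) / 2)) ≠ 0)
    (hw : w = n ∨ w + 1 = n) (h1 : Even (w + (a + 1)) → ¬ f ∣ X - C 1) :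
    ¬ (twist _ hc f) ^ 2 ∣ (D.frob (a + 1) w).charpoly := by
  by_cases ha : a + 1 ≤ n
  · obtain ⟨P, hP, hsim⟩ := hM (a + 1) (by omega) ha w hw
    have hP' : (D.frob (a + 1) w).charpoly = P.map (Int.castRingHom E) := hP
    have hP0 : P ≠ 0 := by
      rintro rfl
      rw [Polynomial.map_zero] at hP'
      exact (LinearMap.charpoly_monic (D.frob (a + 1) w)).ne_zero hP'
    rw [hP']
    refine simple_except hsim hP0 _ (twist_irreducible hc hf) fun hev hdvd => h1 hev ?_
    rw [Nat.cast_pow] at hdvd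
    exact twist_dvd hc hdvd
  · intro hdvd
    have hsub : Subsingleton (D.V (a + 1) w) :=
      ⟨fun x y => by rw [hb.empty _ _ x (by omega), hb.empty _ _ y (by omega)]⟩
    have h2 : (D.frob (a + 1) w).charpoly.natDegree = 0 := by
      rw [LinearMap.charpoly_natDegree]
      exact finrank_zero_of_subsingleton
    have h3 := natDegree_le_of_dvd hdvd (LinearMap.charpoly_monic _).ne_zero
    rw [h2, natDegree_pow] at h3
    have h4 := (twist_irreducible hc hf).natDegree_pos
    omega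

/-- odd degree -/
theorem odd_fill (hq : q ≠ 0) (hD : D.IsBase n q) (hM : D.MultiplicityOne n q) {s v : ℕ}
    (hv : v + 1 ≤ n) (hodd : (v + s) % 2 = 1) (m : D.V s v) (hm : gam (rho m) = 0) :
    rho m = 0 := by
  obtain ⟨g, hg0, hg⟩ := exists_kill (q := q) hD.bounded hD.above
  refine nt_fill hq hD hv m hm g hg0 (by rw [hg]; rfl) fun f hf _ a w hc hw hpar => ?_
  refine not_sq_of_mult hD.bounded hM hf hc hw fun hev => ?_
  rw [Nat.even_iff] at hev
  omega

/-- even degree -/
theorem even_fill (hq : q ≠ 0) (hD : D.IsBase n q) (hM : D.MultiplicityOne n q) {s v : ℕ}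
    (hv : v + 1 ≤ n) (m : D.V s v) (hm : gam (rho m) = 0) :
    ∃ m0 ∈ D.tatePart q s v, rho m = rho m0 := by
  have hq' : (q : E) ≠ 0 := Nat.cast_ne_zero.2 hq
  obtain ⟨g, hg0, hg⟩ := exists_kill (q := q) hD.bounded hD.above
  obtain ⟨h, hgh, hfh⟩ := FiniteMultiplicity.exists_eq_pow_mul_and_not_dvd
    (Polynomial.finiteMultiplicity_X_sub_C (1 : E) hg0)
  set k := multiplicity (X - C (1 : E)) g with hk
  have hXirr : Irreducible (X - C (1 : E)) := irreducible_X_sub_C _
  have hcop : IsCoprime ((X - C (1 : E)) ^ k) h :=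
    IsCoprime.pow_left ((EuclideanDomain.dvd_or_coprime _ _ hXirr).resolve_left hfh)
  obtain ⟨a, b, hab⟩ := hcop
  have hh0 : h ≠ 0 := by
    rintro rfl
    exact hg0 (by rw [hgh, mul_zero])
  set F := nf D q s v with hF
  set m0 := aeval F (b * h) m with hm0
  set m1 := aeval F (a * (X - C (1 : E)) ^ k) m with hm1
  have hsum : m1 + m0 = m := by
    rw [hm1, hm0, ← LinearMap.add_apply, ← map_add, hab, map_one, Module.End.one_apply]
  refine ⟨m0, ?_, ?_⟩
  · unfold Strata.tatePart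
    rw [Module.End.mem_maxGenEigenspace]
    refine ⟨k, ?_⟩
    set c : E := (q : E) ^ ((v - s) / 2) with hc
    have hc0 : c ≠ 0 := pow_ne_zero _ hq'
    have h1 : D.frob s v - ((q ^ ((v - s) / 2) : ℕ) : E) • (1 : Module.End E (D.V s v)) =
        c • (F - 1) := by
      rw [smul_sub, Nat.cast_pow, ← hc, hF]
      congr 1
      change D.frob s v = c • (c⁻¹ • D.frob s v)
      rw [smul_smul, mul_inv_cancel₀ hc0, one_smul]
    rw [h1, _root_.smul_pow, LinearMap.smul_apply]
    have h2 : (F - 1) ^ k = aeval F ((X - C (1 : E)) ^ k) := by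
      rw [map_pow, map_sub, aeval_X, C_1, map_one]
    rw [h2, hm0, ← Module.End.mul_apply, ← map_mul,
      show (X - C (1 : E)) ^ k * (b * h) = b * ((X - C (1 : E)) ^ k * h) by ring, ← hgh, map_mul,
      hg, mul_zero, LinearMap.zero_apply, smul_zero]
  · have e1 : rho m1 = aeval (nf D q (s + 1) (v + 1)) (a * (X - C (1 : E)) ^ k) (rho m) :=
      aeval_comm (D.res s v) F (nf D q (s + 1) (v + 1)) (rho_nf hD.frobenius) _ m
    have e2 : gam (rho m1) = 0 := by
      rw [e1]
      have e3 := aeval_comm (D.gys s (v + 1)) (nf D q (s + 1) (v + 1)) (nf D q s (v + 1 + 1))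
        (gam_nf hq' hD.bounded hD.frobenius) (a * (X - C (1 : E)) ^ k) (rho m)
      refine e3.trans ?_
      have e4 : D.gys s (v + 1) (rho m) = 0 := hm
      rw [e4, map_zero]
    have h1 : rho m1 = 0 := by
      refine nt_fill hq hD hv m1 e2 h hh0 ?_ fun f hf hfd a' w hc hw hpar => ?_
      · rw [e1, ← Module.End.mul_apply, ← map_mul,
          show h * (a * (X - C (1 : E)) ^ k) = a * ((X - C (1 : E)) ^ k * h) by ring, ← hgh,
          map_mul, hg, mul_zero, LinearMap.zero_apply]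
      · refine not_sq_of_mult hD.bounded hM hf hc hw fun _ hdvd => ?_
        exact hfh ((hf.associated_of_dvd hXirr hdvd).symm.dvd.trans hfd)
    rw [← hsum, rho_add, h1, zero_add]

omit [CharZero E] in
/-- total degree `0` -/
lemma mw_degree_zero (hb : D.IsBounded n) {r : ℕ} (hr : 1 ≤ r) : D.MonodromyWeight 0 r := by
  have key : ∀ (p : ℤ), p.natAbs = r → ∀ x ∈ D.Z p 0, x = 0 := by
    intro p hp x hx
    rw [mem_Z] at hx
    funext a
    by_cases ha : InCol p a
    · exact hb.neg a 0 (x a) (by have := ha.1; omega)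
    · exact hx.1 a ha
  have kp := key (r : ℤ) (by simp)
  have km := key (-(r : ℤ)) (by simp)
  refine ⟨fun x hx => ?_, fun x hx => hx, fun x hx _ => ?_, fun y hy => ⟨0, ?_, ?_⟩⟩
  · rw [km x hx]
    exact Submodule.zero_mem (D.Z (r : ℤ) 0)
  · rw [km x hx]
    exact Submodule.zero_mem (D.B (-(r : ℤ)) 0)
  · exact Submodule.zero_mem (D.Z (-(r : ℤ)) 0)
  · rw [kp y hy]
    change (0 - 0 : D.Ch 0) ∈ D.B (r : ℤ) 0
    rw [sub_zero]
    exact Submodule.zero_mem (D.B (r : ℤ) 0)

/-- both halves -/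
lemma mw_both (hD : D.IsProjective n q) {w r : ℕ} (hw : w ≤ n) (hr : 1 ≤ r)
    (h : ∀ s v, v + 1 = w → s + 1 = r → ∀ m : D.V s v, gam (rho m) = 0 →
      ∃ k : D.V (s + 1 + 1) v, gam k = rho m ∧ rho k = 0) {w' : ℕ} (hw' : w' = w ∨ w + w' = 2 * n) :
    D.MonodromyWeight w' r := by
  have h1 : D.MonodromyWeight w r := by
    rcases Nat.eq_zero_or_pos w with h0 | h0
    · subst h0
      exact mw_degree_zero hD.bounded hr
    · obtain ⟨v, rfl⟩ : ∃ v, w = v + 1 := ⟨w - 1, by omega⟩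
      obtain ⟨s, rfl⟩ : ∃ s, r = s + 1 := ⟨r - 1, by omega⟩
      exact mw_of_fill hD.complex hD.duality hD.bounded hD.generic s v hw (h s v rfl rfl)
  rcases hw' with rfl | hw'
  · exact h1
  · obtain ⟨k, hk⟩ : ∃ k, w + k = n := ⟨n - w, by omega⟩
    have h2 : w' = w + 2 * k := by omega
    rw [h2]
    exact mw_upper hD.complex hD.generic hk hr h1

theorem mult_odd (hq : q ≠ 0) (hD : D.IsProjective n q) (hM : D.MultiplicityOne n q) {w r : ℕ}
    (hw : w ≤ n) (hr : 1 ≤ r) (hodd : Odd (w + r)) {w' : ℕ} (hw' : w' = w ∨ w + w' = 2 * n) :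
    D.MonodromyWeight w' r := by
  refine mw_both hD hw hr (fun s v hv hs m hm => ⟨0, ?_, rho_zero⟩) hw'
  rw [Nat.odd_iff] at hodd
  rw [gam_zero, odd_fill hq hD.base hM (by omega) (by omega) m hm]

theorem mult_low (hq : q ≠ 0) (hD : D.IsProjective n q) (hM : D.MultiplicityOne n q)
    (A : D.Cycles) (hA : A.IsGeometric n) (hT : ∀ a, A.TateDivisors q a) {w r : ℕ}
    (hw : w ≤ n) (hr : 1 ≤ r) (hwr : w ≤ r + 2) {w' : ℕ} (hw' : w' = w ∨ w + w' = 2 * n) :
    D.MonodromyWeight w' r := by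
  by_cases hodd : Odd (w + r)
  · exact mult_odd hq hD hM hw hr hodd hw'
  rw [Nat.odd_iff] at hodd
  refine mw_both hD hw hr (fun s v hv hs m hm => ?_) hw'
  rcases lt_trichotomy v s with h1 | h1 | h1
  · have h2 : m = 0 := hD.bounded.neg s v m h1
    exact ⟨0, by rw [h2, gam_zero, rho_zero], rho_zero⟩
  · subst h1
    obtain ⟨k, hk⟩ : ∃ k, v + 1 + k = n := ⟨n - (v + 1), by omega⟩
    exact ⟨0, by rw [gam_zero, component_fill hk hD.lefschetz hD.duality A hA.stable hA.components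
      hA.rational m hm], rho_zero⟩
  · have h2 : v = s + 2 := by omega
    subst h2
    obtain ⟨N, hN⟩ : ∃ N, s + N + 3 = n := ⟨n - s - 3, by omega⟩
    obtain ⟨m0, hm0, h3⟩ := even_fill hq hD.base hM (by omega) m hm
    have h4 : m0 ∈ A.span s (s + 2) := by
      refine hT s ?_
      have h5 : ((q ^ ((s + 2 - s) / 2) : ℕ) : E) = (q : E) := by
        have : (s + 2 - s) / 2 = 1 := by omega
        rw [this, pow_one]
      unfold Strata.tatePart at hm0
      rwa [h5] at hm0
    obtain ⟨k, hk1, hk2⟩ := divisor_fill hN hD.complex hD.lefschetz hD.duality A hA.stable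
      hA.components hA.rational hA.hodge m0 h4 (by rw [← h3]; exact hm)
    exact ⟨k, (h3.trans hk2).symm, hk1⟩

/-- dimension at most `4` -/
theorem mult_four (hn : n ≤ 4) (hq : q ≠ 0) (hD : D.IsProjective n q)
    (hM : D.MultiplicityOne n q) (A : D.Cycles) (hA : A.IsGeometric n)
    (hT : ∀ a, A.TateDivisors q a) {w r : ℕ} (hw : w ≤ 2 * n) (hr : 1 ≤ r) :
    D.MonodromyWeight w r := by
  have key : ∀ w0, w0 ≤ n → (w = w0 ∨ w0 + w = 2 * n) → D.MonodromyWeight w r := by
    intro w0 h0 h1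
    by_cases h2 : w0 ≤ r + 2
    · exact mult_low hq hD hM A hA hT h0 hr h2 h1
    · refine mult_odd hq hD hM h0 hr ?_ h1
      rw [Nat.odd_iff]
      omega
  rcases le_total w n with h | h
  · exact key w h (Or.inl rfl)
  · exact key (2 * n - w) (by omega) (Or.inr (by omega))

end Pool.Agent.W522.M
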