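import Mathlib
import Pool.Agent.W522.G.G7

/-! The statement outside of the Tate eigenvalue. -/

set_option autoImplicit false

namespace Pool.Agent.W522.M

open Polynomial Module Finset Pool.Agent.W522.C

section Ortho

variable {E V W : Type*} [Field E] [AddCommGroup V] [Module E V] [AddCommGroup W] [Module E W]

lemma ortho (b : V →ₗ[E] W →ₗ[E] E) (F : Module.End E V) (G : Module.End E W)
    (hFG : ∀ x y, b (F x) (G y) = b x y) (h : E[X]) (hh : IsCoprime (X - C (1 : E)) h) (k : ℕ) :
    ∀ x, aeval F ((X - C (1 : E)) ^ k) x = 0 → ∀ y, aeval G h y = 0 → b x y = 0 := by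
  obtain ⟨a, c, hac⟩ := hh
  have hcomm : ∀ (p r : E[X]) (y : W), aeval G p (aeval G r y) = aeval G r (aeval G p y) := by
    intro p r y
    rw [← Module.End.mul_apply, ← Module.End.mul_apply, ← map_mul, ← map_mul, mul_comm]
  have hX1 : ∀ y, aeval G (X - C (1 : E)) y = G y - y := by
    intro y
    rw [map_sub, aeval_X, C_1, map_one]
    rfl
  have hX1' : ∀ x, aeval F (X - C (1 : E)) x = F x - x := by
    intro x
    rw [map_sub, aeval_X, C_1, map_one]
    rfl
  induction k with
  | zero =>
    intro x hx y _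
    rw [pow_zero, map_one, Module.End.one_apply] at hx
    rw [hx, map_zero, LinearMap.zero_apply]
  | succ k ih =>
    intro x hx y hy
    have h1 : ∀ z, aeval G h z = 0 → b x (G z - z) = 0 := by
      intro z hz
      have h2 : b (F x - x) (G z) = 0 := by
        apply ih
        · rw [← hX1', ← Module.End.mul_apply, ← map_mul, ← pow_succ]
          exact hx
        · have h3 := hcomm h X z
          rw [aeval_X, hz, map_zero] at h3
          exact h3
      rw [map_sub, LinearMap.sub_apply, hFG] at h2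
      rw [map_sub, sub_eq_zero]
      exact (sub_eq_zero.1 h2).symm
    have h2 : y = G (aeval G a y) - aeval G a y := by
      rw [← hX1, hcomm, ← Module.End.mul_apply, ← map_mul]
      have h3 : aeval G (a * (X - C (1 : E)) + c * h) y = y := by
        rw [hac, map_one, Module.End.one_apply]
      rw [map_add, map_mul (aeval G) c h, LinearMap.add_apply, Module.End.mul_apply, hy, map_zero,
        add_zero] at h3
      exact h3.symm
    rw [h2]
    apply h1
    rw [hcomm, hy, map_zero]

lemma ortho' (b : V →ₗ[E] W →ₗ[E] E) (F : Module.End E V) (G : Module.End E W)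
    (hFG : ∀ x y, b (F x) (G y) = b x y) (h : E[X]) (hh : IsCoprime (X - C (1 : E)) h) (k : ℕ)
    (x : V) (hx : aeval F h x = 0) (y : W) (hy : aeval G ((X - C (1 : E)) ^ k) y = 0) :
    b x y = 0 :=
  ortho b.flip G F (fun y x => hFG x y) h hh k y hy x hx

/-- the projector is self-adjoint -/
lemma self_adj (b : V →ₗ[E] W →ₗ[E] E) (F : Module.End E V) (G : Module.End E W)
    (hFG : ∀ x y, b (F x) (G y) = b x y) (h : E[X]) (hh : IsCoprime (X - C (1 : E)) h) (k : ℕ)
    (a c : E[X]) (hac : a * (X - C (1 : E)) ^ k + c * h = 1)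
    (hF : aeval F ((X - C (1 : E)) ^ k * h) = 0) (hG : aeval G ((X - C (1 : E)) ^ k * h) = 0)
    (x : V) (y : W) : b (aeval F (a * (X - C (1 : E)) ^ k) x) y =
      b x (aeval G (a * (X - C (1 : E)) ^ k) y) := by
  have hx : x = aeval F (a * (X - C (1 : E)) ^ k) x + aeval F (c * h) x := by
    rw [← LinearMap.add_apply, ← map_add, hac, map_one, Module.End.one_apply]
  have hy : y = aeval G (a * (X - C (1 : E)) ^ k) y + aeval G (c * h) y := by
    rw [← LinearMap.add_apply, ← map_add, hac, map_one, Module.End.one_apply]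
  have h1 : b (aeval F (a * (X - C (1 : E)) ^ k) x) (aeval G (c * h) y) = 0 := by
    refine ortho' b F G hFG h hh k _ ?_ _ ?_
    · rw [← Module.End.mul_apply, ← map_mul,
        show h * (a * (X - C (1 : E)) ^ k) = a * ((X - C (1 : E)) ^ k * h) by ring, map_mul, hF,
        mul_zero, LinearMap.zero_apply]
    · rw [← Module.End.mul_apply, ← map_mul,
        show (X - C (1 : E)) ^ k * (c * h) = c * ((X - C (1 : E)) ^ k * h) by ring, map_mul, hG,
        mul_zero, LinearMap.zero_apply]
  have h2 : b (aeval F (c * h) x) (aeval G (a * (X - C (1 : E)) ^ k) y) = 0 := by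
    refine ortho b F G hFG h hh k _ ?_ _ ?_
    · rw [← Module.End.mul_apply, ← map_mul,
        show (X - C (1 : E)) ^ k * (c * h) = c * ((X - C (1 : E)) ^ k * h) by ring, map_mul, hF,
        mul_zero, LinearMap.zero_apply]
    · rw [← Module.End.mul_apply, ← map_mul,
        show h * (a * (X - C (1 : E)) ^ k) = a * ((X - C (1 : E)) ^ k * h) by ring, map_mul, hG,
        mul_zero, LinearMap.zero_apply]
  calc b (aeval F (a * (X - C (1 : E)) ^ k) x) y
      = b (aeval F (a * (X - C (1 : E)) ^ k) x)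
          (aeval G (a * (X - C (1 : E)) ^ k) y + aeval G (c * h) y) := by rw [← hy]
    _ = b (aeval F (a * (X - C (1 : E)) ^ k) x) (aeval G (a * (X - C (1 : E)) ^ k) y) := by
        rw [map_add, h1, add_zero]
    _ = b (aeval F (a * (X - C (1 : E)) ^ k) x + aeval F (c * h) x)
          (aeval G (a * (X - C (1 : E)) ^ k) y) := by
        rw [map_add, LinearMap.add_apply, h2, add_zero]
    _ = _ := by rw [← hx]

end Ortho

variable {E : Type} [Field E] [CharZero E] {D : Strata E} {n q : ℕ}

/-- the normalised Frobenius endomorphism is an isometry, in even degrees -/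
lemma nf_ip (hq : q ≠ 0) (hP : D.FrobeniusPairing n q) {a w v : ℕ} (h : w + v = 2 * n)
    (hev : (w + a) % 2 = 0) (haw : a ≤ w) (hav : a ≤ v) (x : D.V a w) (y : D.V a v) :
    ip (nf D q a w x) (nf D q a v y) = ip x y := by
  have hq' : (q : E) ≠ 0 := Nat.cast_ne_zero.2 hq
  rw [nf_apply, nf_apply, ip_smul_left, ip_smul_right, hP a w v h, Nat.cast_pow, ← mul_assoc,
    ← mul_assoc]
  have h1 : n - a = (w - a) / 2 + (v - a) / 2 := by omega
  have h2 : ((q : E) ^ ((w - a) / 2)) ≠ 0 := pow_ne_zero _ hq'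
  have h3 : ((q : E) ^ ((v - a) / 2)) ≠ 0 := pow_ne_zero _ hq'
  have h4 : ((q : E) ^ ((w - a) / 2))⁻¹ * ((q : E) ^ ((v - a) / 2))⁻¹ * (q : E) ^ (n - a) = 1 := by
    rw [h1, pow_add]
    field_simp
  rw [h4, one_mul]

omit [CharZero E] in
/-- `nf - 1` on families -/
lemma shift_apply {w : ℕ} (x : D.Ch w) (a : ℕ) :
    D.shift q x a = aeval (nf D q a w) (X - C (1 : E)) (x a) := by
  rw [map_sub, aeval_X, C_1, map_one]
  rfl

omit [CharZero E] in
lemma shift_iter {w : ℕ} (k : ℕ) (x : D.Ch w) (a : ℕ) :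
    (D.shift q)^[k] x a = aeval (nf D q a w) ((X - C (1 : E)) ^ k) (x a) := by
  induction k generalizing x with
  | zero => rw [pow_zero, map_one]; rfl
  | succ k ih =>
    rw [Function.iterate_succ_apply, ih, shift_apply, pow_succ, map_mul, Module.End.mul_apply]

lemma tot_poly (hq : q ≠ 0) (hb : D.IsBounded n) (hF : D.IsFrobenius q) (p : E[X]) {w : ℕ}
    (x : D.Ch w) (a : ℕ) :
    tot (fun a => aeval (nf D q a w) p (x a) : D.Ch w) a =
      aeval (nf D q a (w + 1)) p (tot x a) := by
  have hq' : (q : E) ≠ 0 := Nat.cast_ne_zero.2 hq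
  have hg : ∀ (a : ℕ) (y : D.V (a + 1) w), gam (aeval (nf D q (a + 1) w) p y) =
      aeval (nf D q a (w + 1)) p (gam y) := fun a y =>
    aeval_comm (D.gys a w) (nf D q (a + 1) w) (nf D q a (w + 1)) (gam_nf hq' hb hF) p y
  have hr : ∀ (a : ℕ) (y : D.V a w), rho (aeval (nf D q a w) p y) =
      aeval (nf D q (a + 1) (w + 1)) p (rho y) := fun a y =>
    aeval_comm (D.res a w) (nf D q a w) (nf D q (a + 1) (w + 1)) (rho_nf hF) p y
  cases a with
  | zero => exact hg 0 (x 1)
  | succ a =>
    change rho (aeval (nf D q a w) p (x a)) + gam (aeval (nf D q (a + 2) w) p (x (a + 2))) =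
      aeval (nf D q (a + 1) (w + 1)) p (rho (x a) + gam (x (a + 2)))
    rw [hr, hg, map_add]

lemma poly_Z (hq : q ≠ 0) (hb : D.IsBounded n) (hF : D.IsFrobenius q) (P : E[X]) {p : ℤ} {w : ℕ}
    {x : D.Ch w} (hx : x ∈ D.Z p w) : (fun a => aeval (nf D q a w) P (x a) : D.Ch w) ∈ D.Z p w := by
  rw [mem_Z] at hx ⊢
  refine ⟨fun a ha => ?_, fun a ha => ?_⟩
  · rw [hx.1 a ha, map_zero]
  · rw [tot_poly hq hb hF, hx.2 a ha, map_zero]

lemma poly_B (hq : q ≠ 0) (hb : D.IsBounded n) (hF : D.IsFrobenius q) (P : E[X]) {p : ℤ} {w : ℕ}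
    {x : D.Ch w} (hx : x ∈ D.B p w) : (fun a => aeval (nf D q a w) P (x a) : D.Ch w) ∈ D.B p w := by
  cases w with
  | zero =>
    have h1 : x = 0 := hx
    have h2 : (fun a => aeval (nf D q a 0) P (x a) : D.Ch 0) = 0 := by
      funext a
      rw [h1]
      exact map_zero (aeval (nf D q a 0) P)
    rw [h2]
    exact Submodule.zero_mem (D.B p 0)
  | succ w =>
    rw [mem_B] at hx ⊢
    obtain ⟨y, h1, h2, h3⟩ := hx
    refine ⟨fun a => aeval (nf D q a w) P (y a), fun a ha => ?_, fun a ha => ?_, fun a ha => ?_⟩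
    · change aeval (nf D q a w) P (y a) = 0
      rw [h1 a ha, map_zero]
    · rw [tot_poly hq hb hF, h2 a ha]
    · rw [h3 a ha, map_zero]

lemma shift_Z (hq : q ≠ 0) (hb : D.IsBounded n) (hF : D.IsFrobenius q) (k : ℕ) {p : ℤ} {w : ℕ}
    {x : D.Ch w} (hx : x ∈ D.Z p w) : (D.shift q)^[k] x ∈ D.Z p w := by
  have h : (D.shift q)^[k] x = fun a => aeval (nf D q a w) ((X - C (1 : E)) ^ k) (x a) :=
    funext fun a => shift_iter k x a
  rw [h]
  exact poly_Z hq hb hF _ hx

lemma shift_B (hq : q ≠ 0) (hb : D.IsBounded n) (hF : D.IsFrobenius q) (k : ℕ) {p : ℤ} {w : ℕ}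
    {x : D.Ch w} (hx : x ∈ D.B p w) : (D.shift q)^[k] x ∈ D.B p w := by
  have h : (D.shift q)^[k] x = fun a => aeval (nf D q a w) ((X - C (1 : E)) ^ k) (x a) :=
    funext fun a => shift_iter k x a
  rw [h]
  exact poly_B hq hb hF _ hx

/-- **Outside of the Tate eigenvalue**, from the filling property in even degrees outside of it.
The hypothesis `hMW` produces the monodromy-weight property of the direct summand. -/
theorem outside_tate (hq : q ≠ 0) (hC : D.IsComplex) (hb : D.IsBounded n)
    (ha : D.VanishesAbove n) (hL : D.IsLefschetz n) (hd : D.IsDuality n) (hF : D.IsFrobenius q)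
    (hP : D.FrobeniusPairing n q) {w r : ℕ} (hwr : (w + r) % 2 = 0)
    (hMW : ∀ S : Strata E, S.IsComplex → S.IsBounded n → S.IsLefschetz n → S.IsDuality n →
      (D.GenericLefschetz n → S.GenericLefschetz n) →
      (∀ s v, v + 1 ≤ n → (v + s) % 2 = 0 → (∀ (h : E[X]), h ≠ 0 → ¬ (X - C (1 : E)) ∣ h →
        ∀ m : D.V s v, gam (rho m) = 0 → aeval (nf D q (s + 1) (v + 1)) h (rho m) = 0 →
          rho m = 0) → ∀ m : S.V s v, gam (rho m) = 0 → rho m = 0) →
      S.MonodromyWeight w r) : D.BijectiveOutsideTate q w r := by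
  classical
  have hq' : (q : E) ≠ 0 := Nat.cast_ne_zero.2 hq
  obtain ⟨g, hg0, hg⟩ := exists_kill (q := q) hb ha
  obtain ⟨h, hgh, hfh⟩ := FiniteMultiplicity.exists_eq_pow_mul_and_not_dvd
    (Polynomial.finiteMultiplicity_X_sub_C (1 : E) hg0)
  set k := multiplicity (X - C (1 : E)) g with hk
  have hXirr : Irreducible (X - C (1 : E)) := irreducible_X_sub_C _
  have hcop1 : IsCoprime (X - C (1 : E)) h :=
    (EuclideanDomain.dvd_or_coprime _ _ hXirr).resolve_left hfh
  have hcop : IsCoprime ((X - C (1 : E)) ^ k) h := IsCoprime.pow_left hcop1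
  obtain ⟨a0, b0, hab⟩ := hcop
  have hh0 : h ≠ 0 := by
    rintro rfl
    exact hg0 (by rw [hgh, mul_zero])
  set ε := a0 * (X - C (1 : E)) ^ k with hε
  have hεh : ∀ a w (x : D.V a w), aeval (nf D q a w) h (aeval (nf D q a w) ε x) = 0 := by
    intro a w x
    rw [← Module.End.mul_apply, ← map_mul, hε,
      show h * (a0 * (X - C (1 : E)) ^ k) = a0 * ((X - C (1 : E)) ^ k * h) by ring, ← hgh, map_mul,
      hg, mul_zero, LinearMap.zero_apply]
  let e : ∀ a w, D.Hom a w a w := fun a w =>
    if (w + a) % 2 = 0 then aeval (nf D q a w) ε else 0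
  have e_pos : ∀ {a w : ℕ} (_ : (w + a) % 2 = 0) (x : D.V a w),
      e a w x = aeval (nf D q a w) ε x := by
    intro a w h x
    change (if (w + a) % 2 = 0 then aeval (nf D q a w) ε else 0) x = _
    rw [if_pos h]
  have e_neg : ∀ {a w : ℕ} (_ : ¬ (w + a) % 2 = 0) (x : D.V a w), e a w x = 0 := by
    intro a w h x
    change (if (w + a) % 2 = 0 then aeval (nf D q a w) ε else 0) x = _
    rw [if_neg h]
    rfl
  have hε1 : ∀ a w (x : D.V a w), x = aeval (nf D q a w) ε x + aeval (nf D q a w) (b0 * h) x := by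
    intro a w x
    rw [← LinearMap.add_apply, ← map_add, hab, map_one, Module.End.one_apply]
  have hε2 : ∀ a w (x : D.V a w), aeval (nf D q a w) ε (aeval (nf D q a w) ε x) =
      aeval (nf D q a w) ε x := by
    intro a w x
    have h1 := hε1 a w (aeval (nf D q a w) ε x)
    have h2 : aeval (nf D q a w) (b0 * h) (aeval (nf D q a w) ε x) = 0 := by
      rw [map_mul, Module.End.mul_apply, hεh, map_zero]
    rw [h2, add_zero] at h1
    exact h1.symm
  have hcut : IsCut D e := by
    constructor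
    · intro a w x
      by_cases hp : (w + a) % 2 = 0
      · rw [e_pos hp, e_pos hp, hε2]
      · rw [e_neg hp, e_neg hp]
    · intro a w x
      by_cases hp : (w + a) % 2 = 0
      · have hp' : (w + 1 + (a + 1)) % 2 = 0 := by omega
        rw [e_pos hp, e_pos hp']
        exact (aeval_comm (D.res a w) (nf D q a w) (nf D q (a + 1) (w + 1))
          (rho_nf hF) ε x).symm
      · have hp' : ¬ (w + 1 + (a + 1)) % 2 = 0 := by omega
        rw [e_neg hp, e_neg hp', rho_zero]
    · intro a w x
      by_cases hp : (w + (a + 1)) % 2 = 0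
      · have hp' : (w + 1 + a) % 2 = 0 := by omega
        rw [e_pos hp, e_pos hp']
        exact (aeval_comm (D.gys a w) (nf D q (a + 1) w) (nf D q a (w + 1))
          (gam_nf hq' hb hF) ε x).symm
      · have hp' : ¬ (w + 1 + a) % 2 = 0 := by omega
        rw [e_neg hp, e_neg hp', gam_zero]
    · intro a w x
      by_cases hp : (w + a) % 2 = 0
      · have hp' : (w + 2 + a) % 2 = 0 := by omega
        rw [e_pos hp, e_pos hp']
        exact (aeval_comm (D.lef a w) (nf D q a w) (nf D q a (w + 2))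
          (lam_nf hq' hb hF) ε x).symm
      · have hp' : ¬ (w + 2 + a) % 2 = 0 := by omega
        rw [e_neg hp, e_neg hp', lam_zero]
    · intro a w x
      by_cases hp : (w + a) % 2 = 0
      · rw [e_pos hp, e_pos hp]
        exact (aeval_comm (D.frob a w) (nf D q a w) (nf D q a w) phi_nf ε x).symm
      · rw [e_neg hp, e_neg hp]
        exact (map_zero (D.frob a w)).symm
  have hself : ∀ a w v, w + v = 2 * n → ∀ (x : D.V a w) (y : D.V a v),
      ip (e a w x) y = ip x (e a v y) := by
    intro a w v hwv x y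
    by_cases hp : (w + a) % 2 = 0
    · have hp' : (v + a) % 2 = 0 := by omega
      rw [e_pos hp, e_pos hp']
      by_cases hw : w < a
      · have h0 : x = 0 := hb.neg _ _ x hw
        rw [h0, map_zero, ip_zero_left, ip_zero_left]
      by_cases hv : v < a
      · have h0 : y = 0 := hb.neg _ _ y hv
        rw [h0, map_zero, ip_zero_right, ip_zero_right]
      have hg1 := hg a w
      have hg2 := hg a v
      rw [hgh] at hg1 hg2
      exact self_adj (D.pair a w v) (nf D q a w) (nf D q a v)
        (nf_ip hq hP hwv hp (by omega) (by omega)) h hcop1 k a0 b0 hab hg1 hg2 x y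
    · have hp' : ¬ (v + a) % 2 = 0 := by omega
      rw [e_neg hp, e_neg hp', ip_zero_left, ip_zero_right]
  have hS := hMW (cut hcut) (cut_complex hcut hC) (cut_bounded hcut hb) (cut_lef hcut hL)
    (cut_duality hcut hd hself) (cut_generic hcut) (by
      intro s v hv hsv hfill m hm
      apply inc_inj hcut
      refine hfill h hh0 hfh (inc hcut m) ?_ ?_
      · have h1 := congrArg (inc hcut) hm
        exact h1
      · have h1 : inc hcut m = aeval (nf D q s v) ε (inc hcut m) :=
          (e_inc hcut m).symm.trans (e_pos hsv _)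
        have h2 : rho (inc hcut m) = aeval (nf D q (s + 1) (v + 1)) ε (rho (inc hcut m)) := by
          conv_lhs => rw [h1]
          exact aeval_comm (D.res s v) (nf D q s v) (nf D q (s + 1) (v + 1)) (rho_nf hF) ε _
        rw [h2, hεh])
  obtain ⟨-, -, h3, h4⟩ := hS
  -- comparison of `x` and its projection
  have hcol : ∀ (p : ℤ) (a : ℕ), p.natAbs = r → InCol p a → (w + a) % 2 = 0 := by
    intro p a hp hc
    have h5 := hc.2
    rw [Int.even_sub, Int.even_coe_nat] at h5
    have h6 : Even p ↔ Even r := by rw [← hp, Int.natAbs_even]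
    rw [h6, Nat.even_iff, Nat.even_iff] at h5
    omega
  have hcmp : ∀ (p : ℤ) (x : D.Ch w), p.natAbs = r → x ∈ D.Z p w →
      (D.shift q)^[k] x = (D.shift q)^[k] (incCh hcut (prjCh hcut x)) := by
    intro p x hp hx
    funext a
    rw [shift_iter, shift_iter]
    change _ = aeval (nf D q a w) ((X - C (1 : E)) ^ k) (e a w (x a))
    by_cases hc : InCol p a
    · rw [e_pos (hcol p a hp hc)]
      conv_lhs => rw [hε1 a w (x a)]
      rw [map_add]
      have h5 : aeval (nf D q a w) ((X - C (1 : E)) ^ k)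
          (aeval (nf D q a w) (b0 * h) (x a)) = 0 := by
        rw [← Module.End.mul_apply, ← map_mul,
          show (X - C (1 : E)) ^ k * (b0 * h) = b0 * ((X - C (1 : E)) ^ k * h) by ring, ← hgh,
          map_mul, hg, mul_zero, LinearMap.zero_apply]
      rw [h5, add_zero]
    · rw [((mem_Z x).1 hx).1 a hc, map_zero, map_zero, map_zero]
  have hsub : ∀ (x y : D.Ch w), (D.shift q)^[k] (x - y) =
      (D.shift q)^[k] x - (D.shift q)^[k] y := by
    intro x y
    funext a
    rw [Pi.sub_apply, shift_iter, shift_iter, shift_iter, Pi.sub_apply, map_sub]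
  refine ⟨fun x hx hxB => ⟨k, ?_⟩, fun y hy => ?_⟩
  · have h5 : prjCh hcut x ∈ (cut hcut).B (-(r : ℤ)) w :=
      h3 _ (prj_Z hcut hx) (prj_B hcut hxB)
    rw [hcmp (-(r : ℤ)) x (by omega) hx]
    exact shift_B hq hb hF k (inc_B hcut h5)
  · obtain ⟨x', hx', h5⟩ := h4 _ (prj_Z hcut hy)
    refine ⟨k, (D.shift q)^[k] (incCh hcut x'), shift_Z hq hb hF k (inc_Z hcut hx'), ?_⟩
    rw [hcmp (r : ℤ) y (by omega) hy, ← hsub]
    refine shift_B hq hb hF k ?_
    exact inc_B hcut h5

/-- in all degrees -/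
theorem mult_outside (hq : q ≠ 0) (hD : D.IsProjective n q)
    (hM : D.MultiplicityOne n q) {w r : ℕ} (hw : w ≤ n) (hr : 1 ≤ r) (hwr : (w + r) % 2 = 0)
    {w' : ℕ} (hw' : w' = w ∨ w + w' = 2 * n) : D.BijectiveOutsideTate q w' r := by
  refine outside_tate hq hD.complex hD.bounded hD.above hD.lefschetz hD.duality hD.frobenius
    hD.frobeniusPairing
    (by omega) fun S sC sb sL sd sG sf => ?_
  have key : S.MonodromyWeight w r := by
    rcases Nat.eq_zero_or_pos w with h0 | h0
    · subst h0
      exact mw_degree_zero sb hr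
    · obtain ⟨v, rfl⟩ : ∃ v, w = v + 1 := ⟨w - 1, by omega⟩
      obtain ⟨s, rfl⟩ : ∃ s, r = s + 1 := ⟨r - 1, by omega⟩
      refine mw_of_fill sC sd sb (sG hD.generic) s v hw fun m hm => ⟨0, ?_, rho_zero⟩
      rw [gam_zero]
      refine (sf s v hw (by omega) (fun h hh hX m hm hx => ?_) m hm).symm
      refine nt_fill hq hD.base hw m hm h hh hx fun f hf hfd a' w hc hw hpar => ?_
      refine not_sq_of_mult hD.bounded hM hf hc hw fun _ hdvd => ?_
      exact hX ((hf.associated_of_dvd (irreducible_X_sub_C _) hdvd).symm.dvd.trans hfd)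
  rcases hw' with rfl | hw'
  · exact key
  · obtain ⟨k, hk⟩ : ∃ k, w + k = n := ⟨n - w, by omega⟩
    have h2 : w' = w + 2 * k := by omega
    rw [h2]
    exact mw_upper sC (sG hD.generic) hk hr key

end Pool.Agent.W522.M
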