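import Mathlib
import Pool.Agent.W522.G.G8

/-! Multiplicity one: the final statement. -/

set_option autoImplicit false

namespace Pool.Agent.W522.M

variable {E : Type} [Field E] [CharZero E] {D : Strata E} {n q : ℕ}

theorem mult_final (hq : q ≠ 0) (hD : D.IsProjective n q)
    (hM : D.MultiplicityOne n q) :
    (∀ w r, w ≤ 2 * n → 1 ≤ r → Odd (w + r) → D.MonodromyWeight w r) ∧
    (∀ w r, w ≤ 2 * n → 1 ≤ r → Even (w + r) → D.BijectiveOutsideTate q w r) ∧
    (∀ A : D.Cycles, A.IsGeometric n → (∀ a, A.TateDivisors q a) →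
      ∀ w r, w ≤ 2 * n → 1 ≤ r → (n ≤ 4 ∨ w ≤ r + 2 ∨ 2 * n ≤ w + r + 2) →
        D.MonodromyWeight w r) := by
  refine ⟨fun w r hw hr hodd => ?_, fun w r hw hr hev => ?_, fun A hA hT w r hw hr h => ?_⟩
  · rw [Nat.odd_iff] at hodd
    rcases le_total w n with h | h
    · exact mult_odd hq hD hM h hr (Nat.odd_iff.2 hodd) (Or.inl rfl)
    · exact mult_odd hq hD hM (w := 2 * n - w) (by omega) hr (Nat.odd_iff.2 (by omega))
        (Or.inr (by omega))
  · rw [Nat.even_iff] at hev
    rcases le_total w n with h | h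
    · exact mult_outside hq hD hM h hr (by omega) (Or.inl rfl)
    · exact mult_outside hq hD hM (w := 2 * n - w) (by omega) hr (by omega)
        (Or.inr (by omega))
  · rcases h with h | h
    · exact mult_four h hq hD hM A hA hT hw hr
    · rcases le_total w n with h1 | h1
      · exact mult_low hq hD hM A hA hT h1 hr (by omega) (Or.inl rfl)
      · exact mult_low hq hD hM A hA hT (w := 2 * n - w) (by omega) hr (by omega)
          (Or.inr (by omega))

end Pool.Agent.W522.M
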